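import Pool.Agent.H38.EQ.Targets

/-!
Row ADN: admissible tuples whose product is divisible by `D`.
-/

set_option autoImplicit false

open Finset

namespace Pool.Agent.H40.EQ

open Pool.Agent.H38.EQ
open Pool.Agent.H38.AE.Statement (Admissible radical)
open Pool.Agent.H38.AT (height)

variable {n : ℕ}

/-- The common divisors of the entries with `D`. -/
def gd (D : ℕ) (x : Fin n → ℤ) : Fin n → ℕ := fun i => D.gcd (x i).natAbs

lemma gcd_prod_coprime {ι : Type} (D : ℕ) (a : ι → ℕ)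
    (ha : ∀ i j, i ≠ j → (a i).Coprime (a j)) (s : Finset ι) :
    D.gcd (∏ i ∈ s, a i) = ∏ i ∈ s, D.gcd (a i) := by
  classical
  induction s using Finset.induction_on with
  | empty => simp
  | insert i s hi ih =>
    rw [Finset.prod_insert hi, Finset.prod_insert hi, ← ih]
    refine Nat.Coprime.gcd_mul D ?_
    refine Nat.Coprime.prod_right (fun j hj => ha i j ?_)
    rintro rfl
    exact hi hj

lemma gd_spec (D : ℕ) (hD : 1 ≤ D) (x : Fin n → ℤ) (hx : Admissible x) (hdv : D ∣ pr x) :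
    PC (gd D x) ∧ Lt (gd D x) x ∧ ∏ i, gd D x i = D ∧
      gd D x ∈ Fintype.piFinset (fun _ : Fin n => D.divisors) := by
  have hco : ∀ i j, i ≠ j → ((x i).natAbs).Coprime ((x j).natAbs) := fun i j hij =>
    Int.isCoprime_iff_nat_coprime.mp (hx.2.1 i j hij)
  refine ⟨⟨fun i => Nat.gcd_pos_of_pos_left _ hD, fun i j hij => ?_⟩, ⟨fun i => ⟨hx.1 i, ?_⟩,
    hx.2.2⟩, ?_, ?_⟩
  · exact Nat.Coprime.coprime_dvd_left (Nat.gcd_dvd_right _ _)
      (Nat.Coprime.coprime_dvd_right (Nat.gcd_dvd_right _ _) (hco i j hij))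
  · exact Int.natCast_dvd.mpr (Nat.gcd_dvd_right _ _)
  · have h1 := gcd_prod_coprime D (fun i => (x i).natAbs) hco Finset.univ
    have h2 : ∏ i, (x i).natAbs = pr x := by
      unfold pr
      exact (map_prod Int.natAbsHom x Finset.univ).symm
    rw [h2, Nat.gcd_eq_left hdv] at h1
    exact h1.symm
  · rw [Fintype.mem_piFinset]
    intro i
    rw [Nat.mem_divisors]
    exact ⟨Nat.gcd_dvd_left _ _, by omega⟩

lemma fiberwise (n : ℕ) (hn : 3 ≤ n) (C1 : ℝ) (hC1 : 0 < C1)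
    (h2 : ∀ m : ℕ, 1 ≤ m → (m.divisors.card : ℝ) ≤ C1 * (m : ℝ) ^ (1 / (8 * (n : ℝ) ^ 2)))
    (D : ℕ) (hD : 1 ≤ D) (F : Finset (Fin n → ℤ))
    (hF : ∀ x ∈ F, Admissible x ∧ D ∣ pr x) (K : ℝ) (hK : 0 ≤ K)
    (hfib : ∀ d : Fin n → ℕ, PC d → ∏ i, (d i : ℝ) = D →
      ∀ G : Finset (Fin n → ℤ), G ⊆ F → (∀ x ∈ G, Lt d x) → (G.card : ℝ) ≤ K) :
    (F.card : ℝ) ≤ C1 ^ n * (D : ℝ) ^ (1 / (8 * (n : ℝ))) * K := by
  classical
  have hnp : (0 : ℝ) < n := by
    have : 0 < n := by omega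
    exact_mod_cast this
  have h3 : (F.card : ℝ) = ∑ d ∈ F.image (gd D), ((F.filter (fun x => gd D x = d)).card : ℝ) := by
    rw [Finset.card_eq_sum_card_image (gd D) F]
    push_cast
    rfl
  have h4 : ∀ d ∈ F.image (gd D), ((F.filter (fun x => gd D x = d)).card : ℝ) ≤ K := by
    intro d hd
    obtain ⟨x, hx, rfl⟩ := Finset.mem_image.mp hd
    obtain ⟨g1, g2, g3, g4⟩ := gd_spec D hD x (hF x hx).1 (hF x hx).2
    refine hfib (gd D x) g1 ?_ _ (Finset.filter_subset _ _) ?_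
    · have := congrArg (fun k : ℕ => (k : ℝ)) g3
      simpa using this
    · intro y hy
      obtain ⟨hy1, hy2⟩ := Finset.mem_filter.mp hy
      rw [← hy2]
      exact (gd_spec D hD y (hF y hy1).1 (hF y hy1).2).2.1
  have h5 : ((F.image (gd D)).card : ℝ) ≤ C1 ^ n * (D : ℝ) ^ (1 / (8 * (n : ℝ))) := by
    have h6 : F.image (gd D) ⊆ Fintype.piFinset (fun _ : Fin n => D.divisors) := by
      intro d hd
      obtain ⟨x, hx, rfl⟩ := Finset.mem_image.mp hd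
      exact (gd_spec D hD x (hF x hx).1 (hF x hx).2).2.2.2
    have h7 := Finset.card_le_card h6
    rw [Fintype.card_piFinset, Finset.prod_const, Finset.card_univ, Fintype.card_fin] at h7
    have h8 : ((F.image (gd D)).card : ℝ) ≤ (D.divisors.card : ℝ) ^ n := by exact_mod_cast h7
    refine h8.trans ?_
    have h9 : (D.divisors.card : ℝ) ^ n ≤ (C1 * (D : ℝ) ^ (1 / (8 * (n : ℝ) ^ 2))) ^ n :=
      pow_le_pow_left₀ (Nat.cast_nonneg _) (h2 D hD) n
    refine h9.trans (le_of_eq ?_)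
    rw [mul_pow, ← Real.rpow_natCast ((D : ℝ) ^ (1 / (8 * (n : ℝ) ^ 2))) n,
      ← Real.rpow_mul (Nat.cast_nonneg _)]
    congr 2
    field_simp
  rw [h3]
  calc ∑ d ∈ F.image (gd D), ((F.filter (fun x => gd D x = d)).card : ℝ)
      ≤ ∑ d ∈ F.image (gd D), K := Finset.sum_le_sum h4
    _ = ((F.image (gd D)).card : ℝ) * K := by rw [Finset.sum_const, nsmul_eq_mul]
    _ ≤ _ := mul_le_mul_of_nonneg_right h5 hK

theorem pf_ADN (h1 : T_SZ) (h2 : Pool.Agent.H82.AS.T_DVB) : T_ADN := by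
  intro n hn
  have hnp : (0 : ℝ) < n := by
    have : 0 < n := by omega
    exact_mod_cast this
  obtain ⟨C2, hC2, h1⟩ := h1 n hn
  obtain ⟨C1, hC1, h2⟩ := h2 (1 / (8 * (n : ℝ) ^ 2)) (by positivity)
  refine ⟨C1 ^ n * C2, by positivity, ?_⟩
  intro D T F hD hT hF
  have hT0 : (0 : ℝ) ≤ T := by linarith
  have hDp : (0 : ℝ) < D := by exact_mod_cast (lt_of_lt_of_le one_pos hD)
  set Q : ℝ := T ^ (1 - 1 / (n : ℝ)) / (D : ℝ) + T ^ (1 - 2 / (n : ℝ)) with hQ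
  have hQ0 : 0 ≤ Q := by
    have h1 : 0 ≤ T ^ (1 - 1 / (n : ℝ)) := Real.rpow_nonneg hT0 _
    have h2 : 0 ≤ T ^ (1 - 2 / (n : ℝ)) := Real.rpow_nonneg hT0 _
    rw [hQ]; positivity
  have hF' : ∀ x ∈ F, Admissible x ∧ D ∣ pr x := fun x hx => ⟨(hF x hx).1, (hF x hx).2.1⟩
  constructor
  · have h3 := fiberwise n hn C1 hC1 h2 D hD F hF' (C2 * Q) (mul_nonneg hC2.le hQ0)
      (fun d hd hprod G hGF hG => by
        have h4 := (h1 d T G hd hT (fun x hx => ⟨hG x hx, (hF x (hGF hx)).2.2⟩)).1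
        rw [hprod] at h4
        exact h4)
    calc (F.card : ℝ) ≤ C1 ^ n * (D : ℝ) ^ (1 / (8 * (n : ℝ))) * (C2 * Q) := h3
      _ = _ := by ring
  · intro lam hlam hF2
    have hl0 : (0 : ℝ) ≤ lam ^ (-(1 / 2) : ℝ) := Real.rpow_nonneg (by linarith) _
    have h3 := fiberwise n hn C1 hC1 h2 D hD F hF' (C2 * lam ^ (-(1 / 2) : ℝ) * Q)
      (mul_nonneg (mul_nonneg hC2.le hl0) hQ0)
      (fun d hd hprod G hGF hG => by
        have h4 := (h1 d T G hd hT (fun x hx => ⟨hG x hx, (hF x (hGF hx)).2.2⟩)).2 lam hlam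
          (fun x hx => hF2 x (hGF hx))
        rw [hprod] at h4
        exact h4)
    calc (F.card : ℝ) ≤ C1 ^ n * (D : ℝ) ^ (1 / (8 * (n : ℝ))) *
          (C2 * lam ^ (-(1 / 2) : ℝ) * Q) := h3
      _ = _ := by ring

end Pool.Agent.H40.EQ
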