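import Pool.Agent.H38.EQ.Targets

/-!
Rows FIB and BXN: tuples with given entries outside two places, and tuples in a box.
-/

set_option autoImplicit false

open Finset

namespace Pool.Agent.H40.EQ

open Pool.Agent.H38.EQ
open Pool.Agent.H38.AT (height)

/-- Integers in a symmetric interval in one residue class. -/
lemma card_class (q : ℕ) (hq : 1 ≤ q) (M : ℝ) (hM : 0 ≤ M) (S : Finset ℤ)
    (h1 : ∀ s ∈ S, |(s : ℝ)| ≤ M) (h2 : ∀ s ∈ S, ∀ t ∈ S, (q : ℤ) ∣ s - t) :
    S.card ≤ ⌊2 * M / q⌋₊ + 1 := by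
  rcases S.eq_empty_or_nonempty with rfl | hS
  · simp
  have hq' : (0 : ℝ) < q := by exact_mod_cast (lt_of_lt_of_le one_pos hq)
  have hqz : (0 : ℤ) < q := by exact_mod_cast (lt_of_lt_of_le one_pos hq)
  set s0 := S.min' hS with hs0
  have hs0m : s0 ∈ S := S.min'_mem hS
  have hinj : Set.InjOn (fun s : ℤ => ((s - s0) / (q : ℤ)).toNat) (S : Set ℤ) := by
    intro s hs t ht hst
    have hs' : s ∈ S := hs
    have ht' : t ∈ S := ht
    have h3 : 0 ≤ (s - s0) / (q : ℤ) :=
      Int.ediv_nonneg (sub_nonneg.mpr (S.min'_le s hs')) hqz.le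
    have h4 : 0 ≤ (t - s0) / (q : ℤ) :=
      Int.ediv_nonneg (sub_nonneg.mpr (S.min'_le t ht')) hqz.le
    have h5 : (s - s0) / (q : ℤ) = (t - s0) / (q : ℤ) := by
      have h6 : ((s - s0) / (q : ℤ)).toNat = ((t - s0) / (q : ℤ)).toNat := hst
      have h7 : (((s - s0) / (q : ℤ)).toNat : ℤ) = (((t - s0) / (q : ℤ)).toNat : ℤ) := by
        rw [h6]
      rwa [Int.toNat_of_nonneg h3, Int.toNat_of_nonneg h4] at h7
    have h8 : s - s0 = t - s0 := by
      rw [← Int.ediv_mul_cancel (h2 s hs' s0 hs0m), h5, Int.ediv_mul_cancel (h2 t ht' s0 hs0m)]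
    linarith
  rw [← Finset.card_image_of_injOn hinj]
  have hsub : S.image (fun s : ℤ => ((s - s0) / (q : ℤ)).toNat) ⊆
      Finset.range (⌊2 * M / q⌋₊ + 1) := by
    intro k hk
    obtain ⟨s, hs, rfl⟩ := Finset.mem_image.mp hk
    rw [Finset.mem_range, Nat.lt_succ_iff]
    refine Nat.le_floor ?_
    have h3 : 0 ≤ (s - s0) / (q : ℤ) :=
      Int.ediv_nonneg (sub_nonneg.mpr (S.min'_le s hs)) hqz.le
    have h4 : ((((s - s0) / (q : ℤ)).toNat : ℕ) : ℝ) = (((s - s0) / (q : ℤ) : ℤ) : ℝ) := by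
      have := Int.toNat_of_nonneg h3
      exact_mod_cast this
    rw [h4, le_div_iff₀ hq']
    have h5 : (((s - s0) / (q : ℤ) : ℤ) : ℝ) * (q : ℝ) = (s : ℝ) - s0 := by
      have := Int.ediv_mul_cancel (h2 s hs s0 hs0m)
      exact_mod_cast this
    rw [h5]
    have h6 := abs_le.mp (h1 s hs)
    have h7 := abs_le.mp (h1 s0 hs0m)
    linarith [h6.2, h7.1]
  exact (Finset.card_le_card hsub).trans (by simp)

/-- Nonzero multiples of `d` in a symmetric interval. -/
lemma card_mult (d : ℕ) (hd : 1 ≤ d) (M : ℝ) (hM : 0 ≤ M) (S : Finset ℤ)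
    (h1 : ∀ s ∈ S, s ≠ 0 ∧ (d : ℤ) ∣ s ∧ |(s : ℝ)| ≤ M) :
    (S.card : ℝ) ≤ 2 * M / d := by
  have hd' : (0 : ℝ) < d := by exact_mod_cast (lt_of_lt_of_le one_pos hd)
  have hdz : (d : ℤ) ≠ 0 := by
    have : (0 : ℤ) < d := by exact_mod_cast (lt_of_lt_of_le one_pos hd)
    exact this.ne'
  set K : ℕ := ⌊M / d⌋₊ with hK
  have hinj : Set.InjOn (fun s : ℤ => s / (d : ℤ)) (S : Set ℤ) := by
    intro s hs t ht hst
    have h3 : s / (d : ℤ) = t / (d : ℤ) := hst
    rw [← Int.ediv_mul_cancel (h1 s hs).2.1, h3, Int.ediv_mul_cancel (h1 t ht).2.1]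
  have hsub : S.image (fun s : ℤ => s / (d : ℤ)) ⊆
      (Finset.Icc (-(K : ℤ)) (K : ℤ)).erase 0 := by
    intro k hk
    obtain ⟨s, hs, rfl⟩ := Finset.mem_image.mp hk
    obtain ⟨hs0, hds, hsM⟩ := h1 s hs
    rw [Finset.mem_erase, Finset.mem_Icc, ← abs_le]
    refine ⟨fun h0 => hs0 ?_, ?_⟩
    · rw [← Int.ediv_mul_cancel hds, h0, zero_mul]
    · have h5 : ((s / (d : ℤ) : ℤ) : ℝ) = (s : ℝ) / d := by
        rw [eq_div_iff hd'.ne']
        exact_mod_cast Int.ediv_mul_cancel hds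
      have h6 : |((s / (d : ℤ) : ℤ) : ℝ)| ≤ M / d := by
        rw [h5, abs_div, abs_of_pos hd']
        exact div_le_div_of_nonneg_right hsM hd'.le
      have h7 : (s / (d : ℤ)).natAbs ≤ K := by
        refine Nat.le_floor ?_
        rw [Nat.cast_natAbs, Int.cast_abs]
        exact h6
      rw [Int.abs_eq_natAbs]
      exact_mod_cast h7
  have hcard : ((Finset.Icc (-(K : ℤ)) (K : ℤ)).erase 0).card = 2 * K := by
    rw [Finset.card_erase_of_mem (by simp), Int.card_Icc]
    omega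
  have h8 : S.card ≤ 2 * K := by
    rw [← Finset.card_image_of_injOn hinj, ← hcard]
    exact Finset.card_le_card hsub
  have h9 : (K : ℝ) ≤ M / d := Nat.floor_le (by positivity)
  calc (S.card : ℝ) ≤ 2 * K := by exact_mod_cast h8
    _ ≤ 2 * (M / d) := by linarith
    _ = 2 * M / d := by ring

variable {n : ℕ}

/-- The indices different from `a` and `b`. -/
abbrev Oth (a b : Fin n) : Type := {i : Fin n // i ≠ a ∧ i ≠ b}

/-- Forget two entries. -/
def rs (a b : Fin n) (x : Fin n → ℤ) : Oth a b → ℤ := fun i => x i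

/-- A product over all indices. -/
lemma prod_oth (a b : Fin n) (hab : a ≠ b) (f : Fin n → ℝ) :
    ∏ i, f i = f a * f b * ∏ i : Oth a b, f i := by
  have h1 : ∏ i : Oth a b, f i = ∏ i ∈ Finset.univ.filter (fun i => i ≠ a ∧ i ≠ b), f i :=
    (Finset.prod_subtype _ (by simp) f).symm
  have h2 : ∏ i ∈ Finset.univ.filter (fun i => ¬ (i ≠ a ∧ i ≠ b)), f i = f a * f b := by
    have : Finset.univ.filter (fun i => ¬ (i ≠ a ∧ i ≠ b)) = {a, b} := by
      ext i
      simp only [Finset.mem_filter, Finset.mem_univ, true_and, Finset.mem_insert,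
        Finset.mem_singleton]
      tauto
    rw [this, Finset.prod_pair hab]
  rw [← Finset.prod_filter_mul_prod_filter_not Finset.univ (fun i => i ≠ a ∧ i ≠ b), h2, h1]
  ring

/-- FIB: tuples with given entries outside two places. -/
theorem fib (d : Fin n → ℕ) (a b : Fin n) (hab : a ≠ b) (hd : PC d) (M : ℝ) (hM : 0 ≤ M)
    (F : Finset (Fin n → ℤ)) (hF : ∀ x ∈ F, Lt d x ∧ |(x a : ℝ)| ≤ M) :
    (F.card : ℝ) ≤ (1 + 2 * M / ((d a : ℝ) * d b)) * ((F.image (rs a b)).card : ℝ) := by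
  classical
  have hq : 1 ≤ d a * d b := Nat.mul_pos (hd.1 a) (hd.1 b)
  have key : F.card ≤ (⌊2 * M / ((d a * d b : ℕ) : ℝ)⌋₊ + 1) * (F.image (rs a b)).card := by
    refine Finset.card_le_mul_card_image F _ (fun z hz => ?_)
    set G := F.filter (fun x => rs a b x = z) with hG
    have hGm : ∀ x ∈ G, x ∈ F ∧ rs a b x = z := fun x hx => Finset.mem_filter.mp hx
    have hdiff : ∀ x ∈ G, ∀ y ∈ G, (x a - y a) + (x b - y b) = 0 := by
      intro x hx y hy
      have h1 : ∑ i, (x i - y i) = 0 := by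
        rw [Finset.sum_sub_distrib, (hF x (hGm x hx).1).1.2, (hF y (hGm y hy).1).1.2, sub_zero]
      have h2 : ∑ i, (x i - y i) = (x a - y a) + (x b - y b) := by
        refine Fintype.sum_eq_add a b hab (fun i hi => ?_)
        have h3 : rs a b x = rs a b y := (hGm x hx).2.trans (hGm y hy).2.symm
        have h4 := congrFun h3 ⟨i, hi⟩
        exact sub_eq_zero.mpr h4
      rw [← h2, h1]
    have hinj : Set.InjOn (fun x : Fin n → ℤ => x a) (G : Set (Fin n → ℤ)) := by
      intro x hx y hy hxy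
      have hxy' : x a = y a := hxy
      have h1 := hdiff x hx y hy
      funext i
      by_cases hi : i ≠ a ∧ i ≠ b
      · have h3 : rs a b x = rs a b y := (hGm x hx).2.trans (hGm y hy).2.symm
        exact congrFun h3 ⟨i, hi⟩
      · rcases not_and_or.mp hi with h | h
        · rw [not_not.mp h]; exact hxy'
        · rw [not_not.mp h]; linarith
    rw [← Finset.card_image_of_injOn hinj]
    refine card_class (d a * d b) hq M hM _ ?_ ?_
    · intro s hs
      obtain ⟨x, hx, rfl⟩ := Finset.mem_image.mp hs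
      exact (hF x (hGm x hx).1).2
    · intro s hs t ht
      obtain ⟨x, hx, rfl⟩ := Finset.mem_image.mp hs
      obtain ⟨y, hy, rfl⟩ := Finset.mem_image.mp ht
      have h1 := hdiff x hx y hy
      have h2 : (d a : ℤ) ∣ x a - y a :=
        dvd_sub ((hF x (hGm x hx).1).1.1 a).2 ((hF y (hGm y hy).1).1.1 a).2
      have h3 : (d b : ℤ) ∣ x b - y b :=
        dvd_sub ((hF x (hGm x hx).1).1.1 b).2 ((hF y (hGm y hy).1).1.1 b).2
      have h4 : (d b : ℤ) ∣ x a - y a := by
        have : x a - y a = -(x b - y b) := by linarith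
        rw [this]
        exact (dvd_neg).mpr h3
      have hco : IsCoprime (d a : ℤ) (d b : ℤ) := Nat.isCoprime_iff_coprime.mpr (hd.2 a b hab)
      rw [Nat.cast_mul]
      exact hco.mul_dvd h2 h4
  have h0 : (0 : ℝ) ≤ 2 * M / ((d a * d b : ℕ) : ℝ) := by positivity
  have h1 : ((⌊2 * M / ((d a * d b : ℕ) : ℝ)⌋₊ + 1 : ℕ) : ℝ) ≤
      1 + 2 * M / ((d a : ℝ) * d b) := by
    have := Nat.floor_le h0
    push_cast at this ⊢
    linarith
  calc (F.card : ℝ) ≤ ((⌊2 * M / ((d a * d b : ℕ) : ℝ)⌋₊ + 1 : ℕ) : ℝ) *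
        ((F.image (rs a b)).card : ℝ) := by exact_mod_cast key
    _ ≤ _ := mul_le_mul_of_nonneg_right h1 (Nat.cast_nonneg _)

lemma abs_le_of_height (x : Fin n → ℤ) (M : ℝ) (h : (height x : ℝ) ≤ M) (i : Fin n) :
    |(x i : ℝ)| ≤ M := by
  have h1 : (x i).natAbs ≤ height x :=
    Finset.le_sup (f := fun i => (x i).natAbs) (Finset.mem_univ i)
  have h2 : (((x i).natAbs : ℕ) : ℝ) ≤ (height x : ℝ) := by exact_mod_cast h1
  rw [Nat.cast_natAbs, Int.cast_abs] at h2
  exact h2.trans h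

lemma card_oth (a b : Fin n) (hab : a ≠ b) : Fintype.card (Oth a b) = n - 2 := by
  classical
  have h1 : Fintype.card (Oth a b) = (Finset.univ.filter (fun i : Fin n => i ≠ a ∧ i ≠ b)).card :=
    Fintype.card_subtype _
  have h2 : Finset.univ.filter (fun i : Fin n => i ≠ a ∧ i ≠ b) = (Finset.univ.erase a).erase b := by
    ext i
    simp only [Finset.mem_filter, Finset.mem_univ, true_and, Finset.mem_erase]
    tauto
  rw [h1, h2, Finset.card_erase_of_mem, Finset.card_erase_of_mem (Finset.mem_univ a),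
    Finset.card_univ, Fintype.card_fin]
  · omega
  · rw [Finset.mem_erase]
    exact ⟨fun h => hab h.symm, Finset.mem_univ b⟩

theorem pf_BXN : T_BXN := by
  intro n hn
  refine ⟨2 ^ (n - 1), by positivity, ?_⟩
  intro d M F hd hM hF
  classical
  have hM0 : (0 : ℝ) ≤ M := by linarith
  let a : Fin n := ⟨0, by omega⟩
  let b : Fin n := ⟨1, by omega⟩
  have hab : a ≠ b := by
    intro h
    have := congrArg Fin.val h
    simp [a, b] at this
  have hdp : ∀ i, (0 : ℝ) < d i := fun i => by exact_mod_cast (lt_of_lt_of_le one_pos (hd.1 i))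
  have h1 := fib d a b hab hd M hM0 F
    (fun x hx => ⟨(hF x hx).1, abs_le_of_height x M (hF x hx).2 a⟩)
  have h2 : ((F.image (rs a b)).card : ℝ) ≤ ∏ i : Oth a b, (2 * M / d i) := by
    let S : Oth a b → Finset ℤ := fun i => (F.image (rs a b)).image (fun z => z i)
    have hsub : F.image (rs a b) ⊆ Fintype.piFinset S := by
      intro z hz
      rw [Fintype.mem_piFinset]
      intro i
      exact Finset.mem_image_of_mem _ hz
    have h3 : ((F.image (rs a b)).card : ℝ) ≤ ∏ i : Oth a b, ((S i).card : ℝ) := by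
      have := Finset.card_le_card hsub
      rw [Fintype.card_piFinset] at this
      exact_mod_cast this
    refine h3.trans (Finset.prod_le_prod (fun i _ => Nat.cast_nonneg _) (fun i _ => ?_))
    refine card_mult (d i) (hd.1 i) M hM0 (S i) ?_
    intro s hs
    obtain ⟨z, hz, rfl⟩ := Finset.mem_image.mp hs
    obtain ⟨x, hx, rfl⟩ := Finset.mem_image.mp hz
    exact ⟨((hF x hx).1.1 i).1, ((hF x hx).1.1 i).2, abs_le_of_height x M (hF x hx).2 i⟩
  have h4 : ∏ i : Oth a b, (2 * M / (d i : ℝ)) = (2 * M) ^ (n - 2) / ∏ i : Oth a b, (d i : ℝ) := by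
    rw [Finset.prod_div_distrib, Finset.prod_const, Finset.card_univ, card_oth a b hab]
  set P : ℝ := ∏ i : Oth a b, (d i : ℝ) with hP
  have hP1 : 1 ≤ P := by
    rw [hP]
    have : ∀ i : Oth a b, (1 : ℝ) ≤ d i := fun i => by exact_mod_cast hd.1 i
    calc (1 : ℝ) = ∏ i : Oth a b, (1 : ℝ) := by simp
      _ ≤ _ := Finset.prod_le_prod (fun i _ => zero_le_one) (fun i _ => this i)
  have hprod : ∏ i, (d i : ℝ) = (d a : ℝ) * d b * P := prod_oth a b hab (fun i => (d i : ℝ))
  have hpos : (0 : ℝ) ≤ 1 + 2 * M / ((d a : ℝ) * d b) := by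
    have := hdp a; have := hdp b; positivity
  have hda := hdp a
  have hdb := hdp b
  have hPp : 0 < P := by linarith
  have hn1 : n - 1 = (n - 2) + 1 := by omega
  have h5 : (F.card : ℝ) ≤ (1 + 2 * M / ((d a : ℝ) * d b)) * ((2 * M) ^ (n - 2) / P) := by
    rw [h4] at h2
    exact h1.trans (mul_le_mul_of_nonneg_left h2 hpos)
  have h6 : (1 + 2 * M / ((d a : ℝ) * d b)) * ((2 * M) ^ (n - 2) / P) =
      (2 * M) ^ (n - 2) / P + (2 * M) ^ (n - 1) / (∏ i, (d i : ℝ)) := by
    rw [hprod, hn1, pow_succ]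
    field_simp
  rw [h6] at h5
  refine h5.trans ?_
  have h7 : (2 * M) ^ (n - 2) / P ≤ 2 ^ (n - 1) * M ^ (n - 2) := by
    refine (div_le_self (by positivity) hP1).trans ?_
    rw [mul_pow]
    refine mul_le_mul_of_nonneg_right ?_ (by positivity)
    exact pow_le_pow_right₀ (by norm_num) (by omega)
  have h8 : (2 * M) ^ (n - 1) / (∏ i, (d i : ℝ)) =
      2 ^ (n - 1) * (M ^ (n - 1) / (∏ i, (d i : ℝ))) := by
    rw [mul_pow]; ring
  rw [h8]
  linarith

end Pool.Agent.H40.EQ
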