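import Pool.Agent.H38.EQ.Targets

/-!
Row SZ: tuples with a small product, and those of large height.
-/

set_option autoImplicit false

open Finset

namespace Pool.Agent.H40.EQ

open Pool.Agent.H38.EQ
open Pool.Agent.H38.AT (height)

lemma neg_half_mul (lam : ℝ) (hlam : 1 ≤ lam) :
    4 * (2 * lam) ^ (-(1 / 2) : ℝ) + lam ^ (-(1 / 2) : ℝ) ≤ 4 * lam ^ (-(1 / 2) : ℝ) := by
  have h0 : (0 : ℝ) ≤ lam := by linarith
  rw [Real.mul_rpow (by norm_num) h0]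
  have h1 : (2 : ℝ) ^ (-(1 / 2) : ℝ) ≤ 3 / 4 := by
    rw [Real.rpow_neg (by norm_num), ← Real.sqrt_eq_rpow]
    rw [inv_le_comm₀ (Real.sqrt_pos.mpr (by norm_num)) (by norm_num)]
    refine Real.le_sqrt_of_sq_le ?_
    norm_num
  have h2 : 0 ≤ lam ^ (-(1 / 2) : ℝ) := Real.rpow_nonneg h0 _
  nlinarith

/-- The dyadic decomposition. -/
lemma dyadic (n : ℕ) (C : ℝ) (hC : 0 < C)
    (h : ∀ (d : Fin n → ℕ) (T ρ : ℝ) (F : Finset (Fin n → ℤ)), PC d → 1 ≤ T → 1 ≤ ρ →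
      (∀ x ∈ F, Lt d x ∧ (pr x : ℝ) ≤ T ∧ ρ * T ^ (1 / (n : ℝ)) ≤ (height x : ℝ) ∧
        (height x : ℝ) ≤ 2 * ρ * T ^ (1 / (n : ℝ))) →
      (F.card : ℝ) ≤ C * ρ ^ (-(1 / 2) : ℝ) *
        (T ^ (1 - 1 / (n : ℝ)) / (∏ i, (d i : ℝ)) + T ^ (1 - 2 / (n : ℝ))))
    (d : Fin n → ℕ) (T : ℝ) (hd : PC d) (hT : 1 ≤ T) :
    ∀ (k : ℕ) (lam : ℝ) (F : Finset (Fin n → ℤ)), 1 ≤ lam →
      (∀ x ∈ F, Lt d x ∧ (pr x : ℝ) ≤ T ∧ lam * T ^ (1 / (n : ℝ)) ≤ (height x : ℝ) ∧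
        (height x : ℝ) ≤ 2 ^ k * lam * T ^ (1 / (n : ℝ))) →
      (F.card : ℝ) ≤ 4 * C * lam ^ (-(1 / 2) : ℝ) *
        (T ^ (1 - 1 / (n : ℝ)) / (∏ i, (d i : ℝ)) + T ^ (1 - 2 / (n : ℝ))) := by
  have hT0 : (0 : ℝ) ≤ T := by linarith
  have hdp : (0 : ℝ) < ∏ i, (d i : ℝ) :=
    Finset.prod_pos (fun i _ => by exact_mod_cast (lt_of_lt_of_le one_pos (hd.1 i)))
  set Q : ℝ := T ^ (1 - 1 / (n : ℝ)) / (∏ i, (d i : ℝ)) + T ^ (1 - 2 / (n : ℝ)) with hQ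
  have hQ0 : 0 ≤ Q := by
    have h1 : 0 ≤ T ^ (1 - 1 / (n : ℝ)) := Real.rpow_nonneg hT0 _
    have h2 : 0 ≤ T ^ (1 - 2 / (n : ℝ)) := Real.rpow_nonneg hT0 _
    rw [hQ]; positivity
  have hTn : 0 ≤ T ^ (1 / (n : ℝ)) := Real.rpow_nonneg hT0 _
  intro k
  induction k with
  | zero =>
    intro lam F hlam hF
    have hl0 : (0 : ℝ) ≤ lam := by linarith
    have h1 := h d T lam F hd hT hlam (fun x hx => by
      obtain ⟨a1, a2, a3, a4⟩ := hF x hx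
      refine ⟨a1, a2, a3, ?_⟩
      have h3 : 0 ≤ lam * T ^ (1 / (n : ℝ)) := mul_nonneg hl0 hTn
      rw [pow_zero, one_mul] at a4
      linarith)
    have h2 : 0 ≤ C * lam ^ (-(1 / 2) : ℝ) * Q :=
      mul_nonneg (mul_nonneg hC.le (Real.rpow_nonneg hl0 _)) hQ0
    calc (F.card : ℝ) ≤ C * lam ^ (-(1 / 2) : ℝ) * Q := h1
      _ ≤ 4 * (C * lam ^ (-(1 / 2) : ℝ) * Q) := by linarith
      _ = _ := by ring
  | succ k ih =>
    intro lam F hlam hF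
    classical
    have hl0 : (0 : ℝ) ≤ lam := by linarith
    set F1 := F.filter (fun x => (height x : ℝ) ≤ 2 * lam * T ^ (1 / (n : ℝ))) with hF1
    set F2 := F.filter (fun x => ¬ (height x : ℝ) ≤ 2 * lam * T ^ (1 / (n : ℝ))) with hF2
    have hc : F.card = F1.card + F2.card := (Finset.card_filter_add_card_filter_not _).symm
    have h1 := h d T lam F1 hd hT hlam (fun x hx => by
      obtain ⟨hx1, hx2⟩ := Finset.mem_filter.mp hx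
      obtain ⟨a1, a2, a3, a4⟩ := hF x hx1
      exact ⟨a1, a2, a3, hx2⟩)
    have h2 := ih (2 * lam) F2 (by linarith) (fun x hx => by
      obtain ⟨hx1, hx2⟩ := Finset.mem_filter.mp hx
      obtain ⟨a1, a2, a3, a4⟩ := hF x hx1
      refine ⟨a1, a2, (not_le.mp hx2).le, ?_⟩
      calc (height x : ℝ) ≤ 2 ^ (k + 1) * lam * T ^ (1 / (n : ℝ)) := a4
        _ = _ := by ring)
    have h3 := neg_half_mul lam hlam
    have hCQ : 0 ≤ C * Q := mul_nonneg hC.le hQ0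
    have h4 := mul_le_mul_of_nonneg_right h3 hCQ
    rw [hc, Nat.cast_add]
    calc (F1.card : ℝ) + F2.card
        ≤ C * lam ^ (-(1 / 2) : ℝ) * Q + 4 * C * (2 * lam) ^ (-(1 / 2) : ℝ) * Q := add_le_add h1 h2
      _ = (4 * (2 * lam) ^ (-(1 / 2) : ℝ) + lam ^ (-(1 / 2) : ℝ)) * (C * Q) := by ring
      _ ≤ 4 * lam ^ (-(1 / 2) : ℝ) * (C * Q) := h4
      _ = _ := by ring

lemma large_height (n : ℕ) (C : ℝ) (hC : 0 < C)
    (h : ∀ (d : Fin n → ℕ) (T ρ : ℝ) (F : Finset (Fin n → ℤ)), PC d → 1 ≤ T → 1 ≤ ρ →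
      (∀ x ∈ F, Lt d x ∧ (pr x : ℝ) ≤ T ∧ ρ * T ^ (1 / (n : ℝ)) ≤ (height x : ℝ) ∧
        (height x : ℝ) ≤ 2 * ρ * T ^ (1 / (n : ℝ))) →
      (F.card : ℝ) ≤ C * ρ ^ (-(1 / 2) : ℝ) *
        (T ^ (1 - 1 / (n : ℝ)) / (∏ i, (d i : ℝ)) + T ^ (1 - 2 / (n : ℝ))))
    (d : Fin n → ℕ) (T : ℝ) (hd : PC d) (hT : 1 ≤ T) (lam : ℝ) (hlam : 1 ≤ lam)
    (F : Finset (Fin n → ℤ))
    (hF : ∀ x ∈ F, Lt d x ∧ (pr x : ℝ) ≤ T ∧ lam * T ^ (1 / (n : ℝ)) ≤ (height x : ℝ)) :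
    (F.card : ℝ) ≤ 4 * C * lam ^ (-(1 / 2) : ℝ) *
        (T ^ (1 - 1 / (n : ℝ)) / (∏ i, (d i : ℝ)) + T ^ (1 - 2 / (n : ℝ))) := by
  have hT1 : 1 ≤ T ^ (1 / (n : ℝ)) := Real.one_le_rpow hT (by positivity)
  set B : ℕ := F.sup height with hB
  obtain ⟨k, hk⟩ := pow_unbounded_of_one_lt (B : ℝ) (by norm_num : (1 : ℝ) < 2)
  refine dyadic n C hC h d T hd hT k lam F hlam (fun x hx => ?_)
  obtain ⟨a1, a2, a3⟩ := hF x hx
  refine ⟨a1, a2, a3, ?_⟩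
  have h1 : height x ≤ B := Finset.le_sup (f := height) hx
  have h2 : (height x : ℝ) ≤ B := by exact_mod_cast h1
  have h3 : (1 : ℝ) ≤ lam * T ^ (1 / (n : ℝ)) := by nlinarith
  have h4 : (0 : ℝ) ≤ 2 ^ k := by positivity
  calc (height x : ℝ) ≤ B := h2
    _ ≤ 2 ^ k := hk.le
    _ = 2 ^ k * 1 := (mul_one _).symm
    _ ≤ 2 ^ k * (lam * T ^ (1 / (n : ℝ))) := mul_le_mul_of_nonneg_left h3 h4
    _ = _ := by ring

theorem pf_SZ (h1 : T_BXN) (h2 : T_DYA) : T_SZ := by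
  intro n hn
  obtain ⟨C1, hC1, h1⟩ := h1 n hn
  obtain ⟨C2, hC2, h2⟩ := h2 n hn
  refine ⟨C1 + 4 * C2, by positivity, ?_⟩
  intro d T F hd hT hF
  have hT0 : (0 : ℝ) ≤ T := by linarith
  have hnp : (0 : ℝ) < n := by
    have : 0 < n := by omega
    exact_mod_cast this
  have hdp : (0 : ℝ) < ∏ i, (d i : ℝ) :=
    Finset.prod_pos (fun i _ => by exact_mod_cast (lt_of_lt_of_le one_pos (hd.1 i)))
  set Q : ℝ := T ^ (1 - 1 / (n : ℝ)) / (∏ i, (d i : ℝ)) + T ^ (1 - 2 / (n : ℝ)) with hQ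
  have hQ0 : 0 ≤ Q := by
    have h1 : 0 ≤ T ^ (1 - 1 / (n : ℝ)) := Real.rpow_nonneg hT0 _
    have h2 : 0 ≤ T ^ (1 - 2 / (n : ℝ)) := Real.rpow_nonneg hT0 _
    rw [hQ]; positivity
  constructor
  · classical
    set F1 := F.filter (fun x => (height x : ℝ) ≤ T ^ (1 / (n : ℝ))) with hF1
    set F2 := F.filter (fun x => ¬ (height x : ℝ) ≤ T ^ (1 / (n : ℝ))) with hF2
    have hc : F.card = F1.card + F2.card := (Finset.card_filter_add_card_filter_not _).symm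
    have h3 := h1 d (T ^ (1 / (n : ℝ))) F1 hd (Real.one_le_rpow hT (by positivity))
      (fun x hx => by
        obtain ⟨hx1, hx2⟩ := Finset.mem_filter.mp hx
        exact ⟨(hF x hx1).1, hx2⟩)
    have e1 : (T ^ (1 / (n : ℝ))) ^ (n - 1) = T ^ (1 - 1 / (n : ℝ)) := by
      rw [← Real.rpow_natCast, ← Real.rpow_mul hT0, Nat.cast_sub (by omega)]
      congr 1
      field_simp
      simp
    have e2 : (T ^ (1 / (n : ℝ))) ^ (n - 2) = T ^ (1 - 2 / (n : ℝ)) := by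
      rw [← Real.rpow_natCast, ← Real.rpow_mul hT0, Nat.cast_sub (by omega)]
      congr 1
      field_simp
      simp
    rw [e1, e2] at h3
    have h4 := large_height n C2 hC2 h2 d T hd hT 1 le_rfl F2 (fun x hx => by
      obtain ⟨hx1, hx2⟩ := Finset.mem_filter.mp hx
      refine ⟨(hF x hx1).1, (hF x hx1).2, ?_⟩
      rw [one_mul]
      exact (not_le.mp hx2).le)
    rw [Real.one_rpow, mul_one] at h4
    rw [hc, Nat.cast_add]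
    calc (F1.card : ℝ) + F2.card ≤ C1 * Q + 4 * C2 * Q := add_le_add h3 h4
      _ = _ := by ring
  · intro lam hlam hF'
    have h4 := large_height n C2 hC2 h2 d T hd hT lam hlam F
      (fun x hx => ⟨(hF x hx).1, (hF x hx).2, hF' x hx⟩)
    refine h4.trans ?_
    have h5 : 0 ≤ lam ^ (-(1 / 2) : ℝ) := Real.rpow_nonneg (by linarith) _
    have h6 : 0 ≤ C1 * lam ^ (-(1 / 2) : ℝ) * Q := mul_nonneg (mul_nonneg hC1.le h5) hQ0
    calc 4 * C2 * lam ^ (-(1 / 2) : ℝ) * Q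
        ≤ C1 * lam ^ (-(1 / 2) : ℝ) * Q + 4 * C2 * lam ^ (-(1 / 2) : ℝ) * Q := by linarith
      _ = _ := by ring

end Pool.Agent.H40.EQ
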