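import Mathlib

set_option autoImplicit false

/-!
Riemann sums over residue classes for bounded functions with bounded support that are
continuous at almost every point.
-/

open MeasureTheory Filter Topology

namespace Pool.Agent.H40.EQ

/-- The unit cube with lower corner `k`. -/
def cube (m : ℕ) (k : Fin m → ℤ) : Set (Fin m → ℝ) := {u | (fun i => ⌊u i⌋) = k}

lemma cube_eq (m : ℕ) (k : Fin m → ℤ) :
    cube m k = Set.pi Set.univ (fun i => Set.Ico (k i : ℝ) ((k i : ℝ) + 1)) := by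
  ext u
  simp only [cube, Set.mem_setOf_eq, Set.mem_pi, Set.mem_univ, true_imp_iff, Set.mem_Ico,
    funext_iff, Int.floor_eq_iff]

lemma meas_cube (m : ℕ) (k : Fin m → ℤ) : MeasurableSet (cube m k) := by
  rw [cube_eq]
  exact MeasurableSet.univ_pi (fun i => measurableSet_Ico)

lemma vol_cube (m : ℕ) (k : Fin m → ℤ) : volume (cube m k) = 1 := by
  rw [cube_eq, Real.volume_pi_Ico]
  simp

/-- A function of the integer parts, with finite support, is integrable and its integral is the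
sum of its values. -/
lemma step_integral (m : ℕ) (h : (Fin m → ℤ) → ℝ) (S : Finset (Fin m → ℤ))
    (hS : ∀ k, k ∉ S → h k = 0) :
    Integrable (fun u : Fin m → ℝ => h (fun i => ⌊u i⌋)) ∧
      ∫ u : Fin m → ℝ, h (fun i => ⌊u i⌋) = ∑ k ∈ S, h k := by
  have hrep : (fun u : Fin m → ℝ => h (fun i => ⌊u i⌋)) =
      fun u => ∑ k ∈ S, (cube m k).indicator (fun _ => h k) u := by
    funext u
    by_cases hu : (fun i => ⌊u i⌋) ∈ S
    · rw [Finset.sum_eq_single_of_mem _ hu]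
      · rw [Set.indicator_of_mem]
        simp [cube]
      · intro k _ hk
        rw [Set.indicator_of_notMem]
        intro hm
        exact hk hm.symm
    · rw [hS _ hu, Finset.sum_eq_zero]
      intro k hk
      rw [Set.indicator_of_notMem]
      intro hm
      have : (fun i => ⌊u i⌋) = k := hm
      rw [this] at hu
      exact hu hk
  have hint : ∀ k ∈ S, Integrable ((cube m k).indicator (fun _ => h k) : (Fin m → ℝ) → ℝ) := by
    intro k _
    rw [integrable_indicator_iff (meas_cube m k)]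
    refine integrableOn_const ?_ ?_
    · rw [vol_cube]; exact ENNReal.one_ne_top
    · exact enorm_ne_top
  rw [hrep]
  refine ⟨integrable_finset_sum S hint, ?_⟩
  rw [integral_finset_sum S hint]
  refine Finset.sum_congr rfl (fun k _ => ?_)
  rw [integral_indicator_const _ (meas_cube m k), Measure.real, vol_cube]
  simp

variable {m : ℕ}

/-- The integer points `k` at which `g ((c + W k) / R)` can be nonzero lie in a box. -/
lemma supp_box (g : (Fin m → ℝ) → ℝ) (B : ℝ) (hB : ∀ x, g x ≠ 0 → ∀ i, |x i| ≤ B)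
    (W : ℕ) (hW : 1 ≤ W) (c : Fin m → ℤ) (R : ℝ) (hR : 0 < R) :
    ∃ S : Finset (Fin m → ℤ), ∀ k, k ∉ S →
      g (fun i => ((c i + W * k i : ℤ) : ℝ) / R) = 0 := by
  refine ⟨Fintype.piFinset (fun i => Finset.Icc (-⌈B * R + |(c i : ℝ)|⌉) ⌈B * R + |(c i : ℝ)|⌉),
    fun k hk => ?_⟩
  by_contra hne
  apply hk
  rw [Fintype.mem_piFinset]
  intro i
  have h1 := hB _ hne i
  rw [abs_div, abs_of_pos hR, div_le_iff₀ hR] at h1
  have hW' : (1 : ℝ) ≤ W := by exact_mod_cast hW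
  have h2 : |(k i : ℝ)| ≤ B * R + |(c i : ℝ)| := by
    have h3 : |(k i : ℝ)| ≤ |(W : ℝ) * k i| := by
      rw [abs_mul, abs_of_nonneg (by positivity : (0 : ℝ) ≤ (W : ℝ))]
      nlinarith [abs_nonneg (k i : ℝ)]
    have h4 : (W : ℝ) * k i = ((c i + W * k i : ℤ) : ℝ) - (c i : ℝ) := by push_cast; ring
    rw [h4] at h3
    have h5 := abs_sub ((c i + W * k i : ℤ) : ℝ) (c i : ℝ)
    linarith
  have h6 : |(k i : ℝ)| ≤ (⌈B * R + |(c i : ℝ)|⌉ : ℝ) := h2.trans (Int.le_ceil _)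
  have h7 : |k i| ≤ ⌈B * R + |(c i : ℝ)|⌉ := by
    have : ((|k i| : ℤ) : ℝ) ≤ (⌈B * R + |(c i : ℝ)|⌉ : ℝ) := by
      rw [Int.cast_abs]; exact h6
    exact_mod_cast this
  rw [Finset.mem_Icc]
  exact abs_le.mp h7

/-- The step function that approximates `g`. -/
noncomputable def phi (g : (Fin m → ℝ) → ℝ) (W : ℕ) (c : Fin m → ℤ) (R : ℝ)
    (y : Fin m → ℝ) : ℝ :=
  g (fun i => ((c i + W * ⌊R / W * y i⌋ : ℤ) : ℝ) / R)

lemma close (W : ℕ) (hW : 1 ≤ W) (c : ℤ) (R : ℝ) (hR : 0 < R) (y : ℝ) :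
    |((c + W * ⌊R / W * y⌋ : ℤ) : ℝ) / R - y| ≤ (|(c : ℝ)| + W) / R := by
  have hW' : (0 : ℝ) < W := by exact_mod_cast (lt_of_lt_of_le one_pos hW)
  have h1 : ((c + W * ⌊R / W * y⌋ : ℤ) : ℝ) / R - y =
      ((c : ℝ) - W * Int.fract (R / W * y)) / R := by
    have h2 : (⌊R / W * y⌋ : ℝ) = R / W * y - Int.fract (R / W * y) := by
      rw [← Int.self_sub_floor]; ring
    push_cast
    rw [h2]
    field_simp
    ring
  rw [h1, abs_div, abs_of_pos hR]
  refine div_le_div_of_nonneg_right ?_ hR.le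
  refine (abs_sub _ _).trans ?_
  have h3 : |(W : ℝ) * Int.fract (R / W * y)| ≤ W := by
    rw [abs_mul, abs_of_pos hW', abs_of_nonneg (Int.fract_nonneg _)]
    have := (Int.fract_lt_one (R / W * y)).le
    nlinarith
  linarith

lemma phi_integral (g : (Fin m → ℝ) → ℝ) (B : ℝ) (hB : ∀ x, g x ≠ 0 → ∀ i, |x i| ≤ B)
    (W : ℕ) (hW : 1 ≤ W) (c : Fin m → ℤ) (R : ℝ) (hR : 0 < R) :
    Integrable (phi g W c R) ∧ ∫ y, phi g W c R y =
      (W : ℝ) ^ m * ((R ^ m)⁻¹ * ∑' k : Fin m → ℤ, g (fun i => ((c i + W * k i : ℤ) : ℝ) / R)) := by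
  have hW' : (0 : ℝ) < W := by exact_mod_cast (lt_of_lt_of_le one_pos hW)
  obtain ⟨S, hS⟩ := supp_box g B hB W hW c R hR
  obtain ⟨h1, h2⟩ := step_integral m (fun k => g (fun i => ((c i + W * k i : ℤ) : ℝ) / R)) S hS
  have hRW : R / W ≠ 0 := (div_pos hR hW').ne'
  have hphi : phi g W c R = fun y : Fin m → ℝ => (fun u : Fin m → ℝ =>
      g (fun i => ((c i + W * ⌊u i⌋ : ℤ) : ℝ) / R)) ((R / W) • y) := by
    funext y
    simp [phi]
  rw [tsum_eq_sum (s := S) (fun k hk => hS k hk), ← h2, hphi]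
  refine ⟨h1.comp_smul hRW, ?_⟩
  rw [Measure.integral_comp_smul (μ := volume) (fun u : Fin m → ℝ =>
      g (fun i => ((c i + W * ⌊u i⌋ : ℤ) : ℝ) / R)) (R / W)]
  rw [Module.finrank_fintype_fun_eq_card, Fintype.card_fin, abs_of_pos (by positivity),
    smul_eq_mul, div_pow, inv_div, div_eq_mul_inv, mul_assoc]

lemma phi_bound (g : (Fin m → ℝ) → ℝ) (M B : ℝ) (hM : ∀ x, |g x| ≤ M)
    (hB : ∀ x, g x ≠ 0 → ∀ i, |x i| ≤ B)
    (W : ℕ) (hW : 1 ≤ W) (c : Fin m → ℤ) (R : ℝ) (hR : 1 ≤ R) (y : Fin m → ℝ) :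
    ‖phi g W c R y‖ ≤ (Set.pi Set.univ (fun i => Set.Icc (-(B + (|(c i : ℝ)| + W)))
      (B + (|(c i : ℝ)| + W)))).indicator (fun _ => M) y := by
  have hR0 : 0 < R := by linarith
  have hM0 : 0 ≤ M := (abs_nonneg _).trans (hM 0)
  by_cases hy : phi g W c R y = 0
  · rw [hy, norm_zero]
    exact Set.indicator_nonneg (fun _ _ => hM0) _
  · rw [Set.indicator_of_mem]
    · exact hM _
    · rw [Set.mem_univ_pi]
      intro i
      rw [Set.mem_Icc, ← abs_le]
      have h1 := hB _ hy i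
      have h2 := close W hW (c i) R hR0 (y i)
      have h3 : (|(c i : ℝ)| + W) / R ≤ |(c i : ℝ)| + W :=
        div_le_self (by positivity) hR
      have h4 : |y i| ≤ |((c i + W * ⌊R / W * y i⌋ : ℤ) : ℝ) / R| +
          |((c i + W * ⌊R / W * y i⌋ : ℤ) : ℝ) / R - y i| := by
        have := abs_sub (((c i + W * ⌊R / W * y i⌋ : ℤ) : ℝ) / R)
          (((c i + W * ⌊R / W * y i⌋ : ℤ) : ℝ) / R - y i)
        rwa [sub_sub_cancel] at this
      linarith

lemma phi_tendsto (g : (Fin m → ℝ) → ℝ) (W : ℕ) (hW : 1 ≤ W) (c : Fin m → ℤ)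
    (y : Fin m → ℝ) (hy : ContinuousAt g y) :
    Tendsto (fun R : ℝ => phi g W c R y) atTop (𝓝 (g y)) := by
  refine hy.tendsto.comp ?_
  rw [tendsto_pi_nhds]
  intro i
  rw [tendsto_iff_norm_sub_tendsto_zero]
  refine squeeze_zero' (Eventually.of_forall (fun R => norm_nonneg _)) ?_
    (tendsto_const_nhds.div_atTop tendsto_id : Tendsto (fun R : ℝ => (|(c i : ℝ)| + W) / R)
      atTop (𝓝 0))
  filter_upwards [eventually_gt_atTop 0] with R hR
  exact close W hW (c i) R hR (y i)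

/-- Such a function is integrable. -/
lemma integrable_of_ae_cont (g : (Fin m → ℝ) → ℝ) (M B : ℝ) (hM : ∀ x, |g x| ≤ M)
    (hB : ∀ x, g x ≠ 0 → ∀ i, |x i| ≤ B) (hc : ∀ᵐ x : Fin m → ℝ, ContinuousAt g x) :
    Integrable g := by
  have hM0 : 0 ≤ M := (abs_nonneg _).trans (hM 0)
  have hae : AEStronglyMeasurable g volume := by
    refine aestronglyMeasurable_of_tendsto_ae (atTop : Filter ℕ)
      (f := fun n : ℕ => phi g 1 0 ((n : ℝ) + 1)) (fun n => ?_) ?_
    · exact (phi_integral g B hB 1 le_rfl 0 ((n : ℝ) + 1) (by positivity)).1.1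
    · filter_upwards [hc] with y hy
      refine (phi_tendsto g 1 le_rfl 0 y hy).comp ?_
      exact tendsto_atTop_add_const_right _ _ tendsto_natCast_atTop_atTop
  have hbd : Integrable ((Set.pi Set.univ (fun _ : Fin m => Set.Icc (-B) B)).indicator
      (fun _ => M)) := by
    rw [integrable_indicator_iff (MeasurableSet.univ_pi (fun i => measurableSet_Icc))]
    refine integrableOn_const ?_ enorm_ne_top
    rw [Set.pi_univ_Icc, Real.volume_Icc_pi]
    exact ENNReal.prod_ne_top (fun i _ => ENNReal.ofReal_ne_top)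
  refine hbd.mono' hae (Eventually.of_forall (fun x => ?_))
  by_cases hx : g x = 0
  · rw [hx, norm_zero]
    exact Set.indicator_nonneg (fun _ _ => hM0) _
  · rw [Set.indicator_of_mem]
    · exact hM _
    · rw [Set.mem_univ_pi]
      intro i
      rw [Set.mem_Icc, ← abs_le]
      exact hB x hx i

/-- Riemann sums over one residue class. -/
theorem riemann (m : ℕ) (g : (Fin m → ℝ) → ℝ) (M B : ℝ) (hM : ∀ x, |g x| ≤ M)
    (hB : ∀ x, g x ≠ 0 → ∀ i, |x i| ≤ B) (hc : ∀ᵐ x : Fin m → ℝ, ContinuousAt g x)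
    (W : ℕ) (hW : 1 ≤ W) (c : Fin m → ℤ) :
    Tendsto (fun R : ℝ => (R ^ m)⁻¹ *
      ∑' k : Fin m → ℤ, g (fun i => ((c i + W * k i : ℤ) : ℝ) / R)) atTop
      (𝓝 (((W : ℝ) ^ m)⁻¹ * ∫ x, g x)) := by
  have hW' : (0 : ℝ) < W := by exact_mod_cast (lt_of_lt_of_le one_pos hW)
  have key : Tendsto (fun R : ℝ => ∫ y, phi g W c R y) atTop (𝓝 (∫ y, g y)) := by
    refine tendsto_integral_filter_of_dominated_convergence
      ((Set.pi Set.univ (fun i => Set.Icc (-(B + (|(c i : ℝ)| + W)))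
      (B + (|(c i : ℝ)| + W)))).indicator (fun _ => M)) ?_ ?_ ?_ ?_
    · filter_upwards [eventually_gt_atTop 0] with R hR
      exact (phi_integral g B hB W hW c R hR).1.1
    · filter_upwards [eventually_ge_atTop 1] with R hR
      exact Eventually.of_forall (fun y => phi_bound g M B hM hB W hW c R hR y)
    · rw [integrable_indicator_iff (MeasurableSet.univ_pi (fun i => measurableSet_Icc))]
      refine integrableOn_const ?_ enorm_ne_top
      rw [Set.pi_univ_Icc, Real.volume_Icc_pi]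
      exact ENNReal.prod_ne_top (fun i _ => ENNReal.ofReal_ne_top)
    · filter_upwards [hc] with y hy
      exact phi_tendsto g W hW c y hy
  have h2 := key.const_mul (((W : ℝ) ^ m)⁻¹)
  refine h2.congr' ?_
  filter_upwards [eventually_gt_atTop 0] with R hR
  rw [(phi_integral g B hB W hW c R hR).2, ← mul_assoc, inv_mul_cancel₀ (pow_pos hW' m).ne',
    one_mul]

/-- Integer vectors as pairs (residue class, quotient). -/
def splitEquiv (m W : ℕ) [NeZero W] : (Fin m → ZMod W) × (Fin m → ℤ) ≃ (Fin m → ℤ) where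
  toFun p := fun i => ((p.1 i).val : ℤ) + W * p.2 i
  invFun x := (fun i => (x i : ZMod W), fun i => x i / W)
  left_inv p := by
    have hW : (0 : ℤ) < W := by exact_mod_cast Nat.pos_of_ne_zero (NeZero.ne W)
    refine Prod.ext ?_ ?_
    · funext i
      simp
    · funext i
      have h1 : ((p.1 i).val : ℤ) < W := by exact_mod_cast ZMod.val_lt (p.1 i)
      have h0 : (0 : ℤ) ≤ ((p.1 i).val : ℤ) := by positivity
      show (((p.1 i).val : ℤ) + W * p.2 i) / W = p.2 i
      rw [Int.add_mul_ediv_left _ _ hW.ne', Int.ediv_eq_zero_of_lt h0 h1, zero_add]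
  right_inv x := by
    funext i
    show (((x i : ZMod W).val : ℕ) : ℤ) + W * (x i / W) = x i
    rw [ZMod.val_intCast]
    exact Int.emod_add_mul_ediv _ _

/-- The function `x ↦ g (x / R)` on integer vectors has finite support. -/
lemma finite_supp (g : (Fin m → ℝ) → ℝ) (B : ℝ) (hB : ∀ x, g x ≠ 0 → ∀ i, |x i| ≤ B)
    (R : ℝ) (hR : 0 < R) :
    ∃ S : Finset (Fin m → ℤ), ∀ x, x ∉ S → g (fun i => (x i : ℝ) / R) = 0 := by
  obtain ⟨S, hS⟩ := supp_box g B hB 1 le_rfl 0 R hR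
  refine ⟨S, fun x hx => ?_⟩
  have := hS x hx
  simpa using this

open Classical in
/-- Riemann sums over a set of residue classes. -/
theorem riemann_classes (m : ℕ) (g : (Fin m → ℝ) → ℝ) (M B : ℝ) (hM : ∀ x, |g x| ≤ M)
    (hB : ∀ x, g x ≠ 0 → ∀ i, |x i| ≤ B) (hc : ∀ᵐ x : Fin m → ℝ, ContinuousAt g x)
    (W : ℕ) [NeZero W] (A : Finset (Fin m → ZMod W)) :
    Tendsto (fun R : ℝ => (R ^ m)⁻¹ * ∑' x : Fin m → ℤ,
      (if (fun i => (x i : ZMod W)) ∈ A then g (fun i => (x i : ℝ) / R) else 0)) atTop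
      (𝓝 ((A.card : ℝ) * ((W : ℝ) ^ m)⁻¹ * ∫ x, g x)) := by
  have hW : 1 ≤ W := Nat.pos_of_ne_zero (NeZero.ne W)
  have h1 : Tendsto (fun R : ℝ => ∑ a ∈ A, (R ^ m)⁻¹ *
      ∑' k : Fin m → ℤ, g (fun i => ((((a i).val : ℤ) + W * k i : ℤ) : ℝ) / R)) atTop
      (𝓝 (∑ a ∈ A, ((W : ℝ) ^ m)⁻¹ * ∫ x, g x)) :=
    tendsto_finsetSum A (fun a _ => riemann m g M B hM hB hc W hW (fun i => ((a i).val : ℤ)))
  rw [Finset.sum_const, nsmul_eq_mul, ← mul_assoc] at h1
  refine h1.congr' ?_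
  filter_upwards [eventually_gt_atTop 0] with R hR
  rw [← Finset.mul_sum]
  congr 1
  obtain ⟨S, hS⟩ := finite_supp g B hB R hR
  set F : (Fin m → ℤ) → ℝ := fun x =>
    if (fun i => (x i : ZMod W)) ∈ A then g (fun i => (x i : ℝ) / R) else 0 with hF
  have hFS : ∀ x, x ∉ S → F x = 0 := by
    intro x hx
    simp only [hF]
    rw [hS x hx, ite_self]
  have hsum : Summable F := summable_of_ne_finset_zero (s := S) (fun x hx => hFS x hx)
  have hsum' : Summable (fun p : (Fin m → ZMod W) × (Fin m → ℤ) => F (splitEquiv m W p)) :=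
    (splitEquiv m W).summable_iff.mpr hsum
  have h2 : ∑' x, F x = ∑' p : (Fin m → ZMod W) × (Fin m → ℤ), F (splitEquiv m W p) :=
    ((splitEquiv m W).tsum_eq F).symm
  have h3 : ∑' p : (Fin m → ZMod W) × (Fin m → ℤ), F (splitEquiv m W p) =
      ∑' a : Fin m → ZMod W, ∑' k : Fin m → ℤ, F (splitEquiv m W (a, k)) :=
    hsum'.tsum_prod
  have h4 : ∀ (a : Fin m → ZMod W) (k : Fin m → ℤ), F (splitEquiv m W (a, k)) =
      if a ∈ A then g (fun i => ((((a i).val : ℤ) + W * k i : ℤ) : ℝ) / R) else 0 := by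
    intro a k
    have h5 : (fun i => ((splitEquiv m W (a, k) i : ℤ) : ZMod W)) = a := by
      have := (splitEquiv m W).symm_apply_apply (a, k)
      exact congrArg Prod.fst this
    simp only [hF]
    rw [h5]
    rfl
  rw [h2, h3, tsum_fintype]
  simp only [h4]
  rw [← Finset.sum_filter_add_sum_filter_not (s := Finset.univ) (p := fun a => a ∈ A)]
  rw [Finset.sum_congr rfl (g := fun _ => (0 : ℝ)) (s₂ := Finset.univ.filter (fun a => ¬ a ∈ A))]
  · rw [Finset.sum_const_zero, add_zero]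
    have h6 : (Finset.univ.filter (fun a => a ∈ A)) = A := by ext a; simp
    rw [h6]
    refine Finset.sum_congr rfl (fun a ha => ?_)
    simp [ha]
  · intro a ha
    have ha' := (Finset.mem_filter.mp ha).2
    simp [ha']

end Pool.Agent.H40.EQ
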