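import Pool.Agent.H71.EQ.Targets
import Pool.Agent.H40.EQ.RS

/-!
Row FXG: Riemann sums over the admissible tuples with a given excess.
-/

set_option autoImplicit false

open MeasureTheory Filter Topology
open Pool.Agent.H38.AE.Statement Pool.Agent.H38.AT

namespace Pool.Agent.H40.EQ

open Pool.Agent.H71.EQ

variable {k : ℕ}

lemma ext_castSucc (v : Fin k → ℤ) (i : Fin k) : ext v i.castSucc = v i := by
  simp [ext]

lemma ext_last (v : Fin k → ℤ) : ext v (Fin.last k) = -∑ i, v i := by
  simp [ext]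

lemma extR_castSucc (v : Fin k → ℝ) (i : Fin k) : extR v i.castSucc = v i := by
  simp [extR]

lemma extR_last (v : Fin k → ℝ) : extR v (Fin.last k) = -∑ i, v i := by
  simp [extR]

lemma sum_ext (v : Fin k → ℤ) : ∑ i, ext v i = 0 := by
  rw [Fin.sum_univ_castSucc]
  simp only [ext_castSucc, ext_last]
  ring

lemma extR_div (v : Fin k → ℤ) (R : ℝ) (i : Fin (k + 1)) :
    extR (fun i => (v i : ℝ) / R) i = (ext v i : ℝ) / R := by
  refine Fin.lastCases ?_ (fun j => ?_) i
  · rw [extR_last, ext_last, ← Finset.sum_div]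
    push_cast
    ring
  · rw [extR_castSucc, ext_castSucc]

/-- The vectors which satisfy the local conditions at the primes up to `z`. -/
def PZ (k E z : ℕ) : Set (Fin k → ℤ) :=
  {v | ∀ p : ℕ, p.Prime → p ≤ z → Loc p (E.factorization p) (ext v)}

lemma md_pos (E z : ℕ) : 0 < md E z := by
  unfold md
  refine Finset.prod_pos (fun p hp => ?_)
  exact pow_pos (Finset.mem_filter.mp hp).2.pos _

lemma pow_dvd_md (E z p : ℕ) (hp : p.Prime) (hpz : p ≤ z) :
    p ^ (E.factorization p + 2) ∣ md E z := by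
  unfold md
  refine Finset.dvd_prod_of_mem (fun p => p ^ (E.factorization p + 2)) ?_
  rw [Finset.mem_filter, Finset.mem_range]
  exact ⟨by omega, hp⟩

lemma mem_PZ_mod (h1 : T_PER) (E z : ℕ) [NeZero (md E z)] (x : Fin k → ℤ) :
    (x ∈ PZ k E z) ↔ (∀ p : ℕ, p.Prime → p ≤ z → Loc p (E.factorization p)
      (ext fun i => ((((x i : ℤ) : ZMod (md E z))).val : ℤ))) := by
  unfold PZ
  rw [Set.mem_setOf_eq]
  refine forall_congr' (fun p => forall_congr' (fun hp => forall_congr' (fun hpz => ?_)))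
  obtain ⟨c, hc⟩ := pow_dvd_md E z p hp hpz
  have h2 := h1 k p (E.factorization p) (fun i => ((((x i : ℤ) : ZMod (md E z))).val : ℤ))
    (fun i => (c : ℤ) * (x i / (md E z : ℤ)))
  rw [← h2]
  have h3 : x = fun i => ((((x i : ℤ) : ZMod (md E z))).val : ℤ) +
      (p : ℤ) ^ (E.factorization p + 2) * ((c : ℤ) * (x i / (md E z : ℤ))) := by
    funext i
    rw [ZMod.val_intCast]
    have h4 : (p : ℤ) ^ (E.factorization p + 2) * ((c : ℤ) * (x i / (md E z : ℤ))) =
        (md E z : ℤ) * (x i / (md E z : ℤ)) := by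
      rw [← mul_assoc]
      congr 1
      exact_mod_cast hc.symm
    rw [h4]
    exact (Int.emod_add_mul_ediv _ _).symm
  rw [← h3]

lemma mem_Fix_iff (h2 : T_CHR) (E : ℕ) (hE : 1 ≤ E) (v : Fin k → ℤ) (hv : ∀ i, ext v i ≠ 0) :
    v ∈ Fix k E ↔ ∀ p : ℕ, p.Prime → Loc p (E.factorization p) (ext v) :=
  h2 (k + 1) (ext v) E hE hv (sum_ext v)

lemma Fix_sub_PZ (h2 : T_CHR) (E : ℕ) (hE : 1 ≤ E) (z : ℕ) : Fix k E ⊆ PZ k E z := by
  intro v hv p hp _
  have hne : ∀ i, ext v i ≠ 0 := hv.1.1
  exact (mem_Fix_iff h2 E hE v hne).mp hv p hp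

/-- The set of row LPR. -/
def LP (k z : ℕ) (R : ℝ) : Set (Fin k → ℤ) :=
  {v | (∀ i, ext v i ≠ 0 ∧ |(ext v i : ℝ)| ≤ R) ∧ ∃ p : ℕ, p.Prime ∧ z < p ∧ ¬ Loc p 0 (ext v)}

open Classical in
/-- Comparison of the two sums. -/
lemma compare (h2 : T_CHR) (E z : ℕ) (hE : 1 ≤ E) (hEz : E ≤ z)
    (g : (Fin k → ℝ) → ℝ) (M B : ℝ) (hM : ∀ z, |g z| ≤ M)
    (hB : ∀ z, g z ≠ 0 → ∀ i, extR z i ≠ 0 ∧ |extR z i| ≤ B) (R : ℝ) (hR : 0 < R)
    (hfin : (LP k z (B * R)).Finite) :
    |∑' v : Fin k → ℤ, (if v ∈ PZ k E z then g (fun i => (v i : ℝ) / R) else 0) -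
      ∑' v : Fin k → ℤ, (Fix k E).indicator (fun v => g (fun i => (v i : ℝ) / R)) v| ≤
      M * ((LP k z (B * R)).ncard : ℝ) := by
  have hB' : ∀ x, g x ≠ 0 → ∀ i : Fin k, |x i| ≤ B := by
    intro x hx i
    have := (hB x hx i.castSucc).2
    rwa [extR_castSucc] at this
  have hM0 : 0 ≤ M := (abs_nonneg _).trans (hM 0)
  obtain ⟨S, hS⟩ := finite_supp g B hB' R hR
  rw [tsum_eq_sum (s := S), tsum_eq_sum (s := S), ← Finset.sum_sub_distrib]
  · refine (Finset.abs_sum_le_sum_abs _ _).trans ?_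
    have h3 : ∀ v ∈ S, |(if v ∈ PZ k E z then g (fun i => (v i : ℝ) / R) else 0) -
        (Fix k E).indicator (fun v => g (fun i => (v i : ℝ) / R)) v| ≤
        if v ∈ hfin.toFinset then M else 0 := by
      intro v _
      by_cases hg : g (fun i => (v i : ℝ) / R) = 0
      · have e1 : (if v ∈ PZ k E z then g (fun i => (v i : ℝ) / R) else 0) = 0 := by
          rw [hg, ite_self]
        have e2 : (Fix k E).indicator (fun v => g (fun i => (v i : ℝ) / R)) v = 0 := by
          by_cases hv : v ∈ Fix k E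
          · rw [Set.indicator_of_mem hv]; exact hg
          · rw [Set.indicator_of_notMem hv]
        rw [e1, e2, sub_zero, abs_zero]
        split_ifs
        · exact hM0
        · exact le_rfl
      · by_cases hP : v ∈ PZ k E z
        · by_cases hv : v ∈ Fix k E
          · rw [if_pos hP, Set.indicator_of_mem hv, sub_self, abs_zero]
            split_ifs
            · exact hM0
            · exact le_rfl
          · rw [if_pos hP, Set.indicator_of_notMem hv, sub_zero]
            have hmem : v ∈ hfin.toFinset := by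
              rw [Set.Finite.mem_toFinset]
              have hne : ∀ i, ext v i ≠ 0 ∧ |(ext v i : ℝ)| ≤ B * R := by
                intro i
                have h5 := hB _ hg i
                rw [extR_div] at h5
                refine ⟨fun h0 => h5.1 ?_, ?_⟩
                · rw [h0]; simp
                · have h6 := h5.2
                  rwa [abs_div, abs_of_pos hR, div_le_iff₀ hR] at h6
              refine ⟨hne, ?_⟩
              by_contra hcon
              apply hv
              rw [mem_Fix_iff h2 E hE v (fun i => (hne i).1)]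
              intro p hp
              by_cases hpz : p ≤ z
              · exact hP p hp hpz
              · have hpz' : z < p := not_le.mp hpz
                have hf : E.factorization p = 0 := by
                  refine Nat.factorization_eq_zero_of_not_dvd (fun hd => ?_)
                  have := Nat.le_of_dvd hE hd
                  omega
                rw [hf]
                by_contra hloc
                exact hcon ⟨p, hp, hpz', hloc⟩
            rw [if_pos hmem]
            exact hM _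
        · have hv : v ∉ Fix k E := fun hv => hP (Fix_sub_PZ h2 E hE z hv)
          rw [if_neg hP, Set.indicator_of_notMem hv, sub_self, abs_zero]
          split_ifs
          · exact hM0
          · exact le_rfl
    refine (Finset.sum_le_sum h3).trans ?_
    rw [← Finset.sum_filter, Finset.sum_const, nsmul_eq_mul, mul_comm]
    refine mul_le_mul_of_nonneg_left ?_ hM0
    rw [Set.ncard_eq_toFinset_card _ hfin]
    have : S.filter (fun v => v ∈ hfin.toFinset) ⊆ hfin.toFinset := by
      intro v hv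
      exact (Finset.mem_filter.mp hv).2
    exact_mod_cast Finset.card_le_card this
  · intro v hv
    by_cases h : v ∈ Fix k E
    · rw [Set.indicator_of_mem h]; exact hS v hv
    · rw [Set.indicator_of_notMem h]
  · intro v hv
    rw [hS v hv, ite_self]

theorem pf_FXG (h1 : T_PER) (h2 : T_CHR) (h3 : T_CRM) (h4 : T_PRD) (h5 : T_LPR) : T_FXG := by
  intro k E hk hE g M B hM hB hc
  classical
  have hB' : ∀ x, g x ≠ 0 → ∀ i : Fin k, |x i| ≤ B := by
    intro x hx i
    have := (hB x hx i.castSucc).2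
    rwa [extR_castSucc] at this
  have hM0 : 0 ≤ M := (abs_nonneg _).trans (hM 0)
  obtain ⟨C, hC, h5⟩ := h5 k hk
  obtain ⟨_, hwz, _⟩ := h4 k E hk hE
  set I : ℝ := ∫ z, g z with hI
  set B1 : ℝ := max B 1 with hB1
  have hB1' : ∀ z, g z ≠ 0 → ∀ i, extR z i ≠ 0 ∧ |extR z i| ≤ B1 :=
    fun z hz i => ⟨(hB z hz i).1, (hB z hz i).2.trans (le_max_left _ _)⟩
  have hB1p : 1 ≤ B1 := le_max_right _ _
  -- the limit for the periodic sets
  have hPZ : ∀ z : ℕ, Tendsto (fun R : ℝ => (R ^ k)⁻¹ *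
      ∑' v : Fin k → ℤ, (if v ∈ PZ k E z then g (fun i => (v i : ℝ) / R) else 0)) atTop
      (𝓝 (wz (k + 1) E z * I)) := by
    intro z
    haveI : NeZero (md E z) := ⟨(md_pos E z).ne'⟩
    let A : Finset (Fin k → ZMod (md E z)) := Finset.univ.filter (fun v =>
      ∀ p : ℕ, p.Prime → p ≤ z → Loc p (E.factorization p) (ext fun i => ((v i).val : ℤ)))
    have hA : (A.card : ℝ) = wz (k + 1) E z * (md E z : ℝ) ^ k := by
      rw [← h3 k E z (by omega) hE]
      congr 1
      rw [Set.ncard_eq_toFinset_card' ]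
      congr 1
      ext v
      simp [A]
    have h6 := riemann_classes k g M B hM hB' hc (md E z) A
    have hmd : ((md E z : ℕ) : ℝ) ^ k ≠ 0 := by
      have := md_pos E z
      positivity
    rw [hA, mul_assoc (wz (k + 1) E z), mul_inv_cancel₀ hmd, mul_one] at h6
    refine h6.congr (fun R => ?_)
    congr 1
    refine tsum_congr (fun v => ?_)
    have h7 : ((fun i => ((v i : ℤ) : ZMod (md E z))) ∈ A) ↔ v ∈ PZ k E z := by
      rw [mem_PZ_mod h1 E z v]
      simp [A]
    by_cases hv : v ∈ PZ k E z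
    · rw [if_pos hv, if_pos (h7.mpr hv)]
    · rw [if_neg hv, if_neg (fun h => hv (h7.mp h))]
  rw [Metric.tendsto_atTop]
  intro ε hε
  -- choice of z
  have hz1 : ∀ᶠ z : ℕ in atTop, dist (wz (k + 1) E z * I) (wt (k + 1) E * I) < ε / 3 :=
    Metric.tendsto_nhds.mp (hwz.mul_const I) (ε / 3) (by positivity)
  have hz2 : ∀ᶠ z : ℕ in atTop, M * (C * B1 ^ k) / (z : ℝ) < ε / 3 := by
    have : Tendsto (fun z : ℕ => M * (C * B1 ^ k) / (z : ℝ)) atTop (𝓝 0) :=
      tendsto_const_div_atTop_nhds_zero_nat _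
    exact this.eventually_lt_const (by positivity)
  obtain ⟨z, hz1, hz2, hz3, hz4⟩ :=
    (hz1.and (hz2.and ((eventually_ge_atTop E).and (eventually_ge_atTop 1)))).exists
  have hR1 : ∀ᶠ R : ℝ in atTop, dist ((R ^ k)⁻¹ *
      ∑' v : Fin k → ℤ, (if v ∈ PZ k E z then g (fun i => (v i : ℝ) / R) else 0))
      (wz (k + 1) E z * I) < ε / 3 := Metric.tendsto_nhds.mp (hPZ z) (ε / 3) (by positivity)
  obtain ⟨R₀, hR₀⟩ := eventually_atTop.mp (hR1.and (eventually_ge_atTop 1))
  refine ⟨R₀, fun R hR => ?_⟩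
  obtain ⟨hR2, hR3⟩ := hR₀ R hR
  have hRp : 0 < R := by linarith
  have hRk : 0 < R ^ k := pow_pos hRp k
  obtain ⟨hfin, hcard⟩ := h5 z (B1 * R) hz4 (by nlinarith)
  have h8 := compare h2 E z hE hz3 g M B1 hM hB1' R hRp hfin
  have h9 : M * ((LP k z (B1 * R)).ncard : ℝ) ≤ M * (C * (B1 * R) ^ k / z) :=
    mul_le_mul_of_nonneg_left hcard hM0
  have h10 : |(R ^ k)⁻¹ *
      ∑' v : Fin k → ℤ, (if v ∈ PZ k E z then g (fun i => (v i : ℝ) / R) else 0) -
      (R ^ k)⁻¹ * ∑' v : Fin k → ℤ,
        (Fix k E).indicator (fun v => g (fun i => (v i : ℝ) / R)) v| < ε / 3 := by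
    rw [← mul_sub, abs_mul, abs_of_pos (inv_pos.mpr hRk)]
    calc (R ^ k)⁻¹ * _ ≤ (R ^ k)⁻¹ * (M * (C * (B1 * R) ^ k / z)) :=
          mul_le_mul_of_nonneg_left (h8.trans h9) (inv_pos.mpr hRk).le
      _ = M * (C * B1 ^ k) / (z : ℝ) := by
          rw [mul_pow]
          field_simp
      _ < ε / 3 := hz2
  rw [Real.dist_eq] at hz1 hR2 ⊢
  have t1 := abs_lt.mp hz1
  have t2 := abs_lt.mp hR2
  have t3 := abs_lt.mp h10
  rw [abs_lt]
  constructor <;> linarith [t1.1, t1.2, t2.1, t2.2, t3.1, t3.2]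

end Pool.Agent.H40.EQ
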