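import Pool.Agent.H92.EQ.TL
import Pool.Agent.H46.EQ.S23
import Pool.Agent.H50.EQ.TCC
import Pool.Agent.H88.EQ.LA

/-!
Row LB of the board `eqd_modules` (MP_75a732_an): the derivative of the pairing.
-/

set_option autoImplicit false

namespace Pool.Agent.H40.EQ

open scoped BigOperators ComplexConjugate ContDiff ComplexOrder Topology
open MeasureTheory Filter
open Pool.Agent.H92.EQ Pool.Agent.H46.EQ
open Pool.Agent.H50.EQ (nsq_smul nsq_pos nsq_smooth ellT_LHT open_WV move_mem RadT_move mixD_scale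
  t_kill t_hess t_hom1 t_smooth shc shc_compact dg dg_ne cont_tl nsq_cont ell_meas)
open Pool.Agent.H88.EQ.LArow (tl_ct ct_tl hessR_tl gd_tl gd_tl_zero gdb_tl tlL tlL_apply
  fderiv_tl)
open Pool.Agent.H89.EQ (l2_congr l2_const)

noncomputable section

section one

variable {N : ℕ}

theorem lh_of_pot {u : (Fin N → ℂ) → ℝ} (hu : Pot u) : LH 1 u :=
  ⟨hu.smooth, fun l z hl hz => by rw [hu.loghom l z hl hz]; ring⟩

theorem lh_of_hom {u : (Fin N → ℂ) → ℝ} (hu : Hom0 u) : LH 0 u :=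
  ⟨hu.smooth, fun l z hl hz => by rw [hu.hom l z hl hz]; ring⟩

theorem tl_smooth : ContDiff ℝ ∞ (tl : (Fin (N + 1) → ℂ) → Fin N → ℂ) :=
  contDiff_pi.2 fun i => contDiff_apply ℝ ℂ i.succ

theorem lht_of_lh {V : Set ℂ} {c : ℝ} {u : (Fin N → ℂ) → ℝ} (hu : LH c u) :
    LHT V c (fun z : Fin (N + 1) → ℂ => u (tl z)) := by
  refine ⟨hu.smooth.comp tl_smooth.contDiffOn fun z hz => hz.2, fun l z hl hz => ?_⟩
  show u (tl (ct (z 0) (l • tl z))) = u (tl z) + c * Real.log ‖l‖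
  rw [tl_ct]
  exact hu.hom l (tl z) hl hz.2

theorem lh_ell (h9 : T_W9) : LH 1 (ell : (Fin N → ℂ) → ℝ) := by
  refine ⟨(h9 (Fin N)).1, fun l z hl hz => ?_⟩
  have h1 : 0 < ‖l‖ := norm_pos_iff.2 hl
  have h2 := nsq_pos hz
  unfold ell
  rw [nsq_smul, Real.log_mul (by positivity) h2.ne', Real.log_pow]
  push_cast
  ring

theorem ct_smooth (t : ℂ) : ContDiff ℝ ∞ (fun x : Fin N → ℂ => ct t x) := by
  refine contDiff_pi.2 fun i => ?_
  refine Fin.cases ?_ (fun j => ?_) i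
  · exact contDiff_const
  · exact contDiff_apply ℝ ℂ j

theorem ct_mem {V : Set ℂ} {t : ℂ} (ht : t ∈ V) {x : Fin N → ℂ} (hx : x ≠ 0) :
    ct t x ∈ WV N V := ⟨ht, hx⟩

/-- The derivative of `ct t`. -/
def ctL (N : ℕ) : (Fin N → ℂ) →L[ℝ] (Fin (N + 1) → ℂ) :=
  ContinuousLinearMap.pi fun i =>
    Fin.cases (motive := fun _ => (Fin N → ℂ) →L[ℝ] ℂ) 0 (fun j => ContinuousLinearMap.proj j) i

theorem ctL_single (i : Fin N) (c : ℂ) :
    ctL N (Pi.single i c) = Pi.single i.succ c := by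
  funext a
  refine Fin.cases ?_ (fun j => ?_) a
  · rw [Pi.single_eq_of_ne (Fin.succ_ne_zero i).symm]
    rfl
  · show (Pi.single i c : Fin N → ℂ) j = _
    by_cases h : j = i
    · subst h; simp
    · have h' : j.succ ≠ i.succ := fun h' => h (Fin.succ_injective _ h')
      rw [Pi.single_eq_of_ne h, Pi.single_eq_of_ne h']

theorem ct_fderiv (t : ℂ) (x : Fin N → ℂ) : HasFDerivAt (fun x : Fin N → ℂ => ct t x) (ctL N) x := by
  rw [hasFDerivAt_pi']
  intro i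
  refine Fin.cases ?_ (fun j => ?_) i
  · exact hasFDerivAt_const t x
  · exact hasFDerivAt_apply j x

theorem wd_ct (f : (Fin (N + 1) → ℂ) → ℂ) (t : ℂ) (x : Fin N → ℂ) (i : Fin N)
    (hf : DifferentiableAt ℝ f (ct t x)) :
    wd i (fun y => f (ct t y)) x = wd i.succ f (ct t x) := by
  have h : HasFDerivAt (fun y => f (ct t y)) ((fderiv ℝ f (ct t x)).comp (ctL N)) x :=
    HasFDerivAt.comp x hf.hasFDerivAt (ct_fderiv t x)
  unfold wd
  rw [h.fderiv]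
  simp only [ContinuousLinearMap.comp_apply, ctL_single]

theorem ct_deriv (x : Fin N → ℂ) (s : ℝ) :
    HasDerivAt (fun s : ℝ => ct (s : ℂ) x) (Pi.single 0 1) s := by
  rw [hasDerivAt_pi]
  intro i
  refine Fin.cases ?_ (fun j => ?_) i
  · rw [Pi.single_eq_same]
    exact Complex.ofRealCLM.hasDerivAt
  · rw [Pi.single_eq_of_ne (Fin.succ_ne_zero j)]
    exact hasDerivAt_const s (x j)

end one

section two

variable {N p q : ℕ}

/-- The functions in the slots. -/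
def ws (u : Fin q → (Fin N → ℂ) → ℝ) : Fin (q + 1) → (Fin N → ℂ) → ℝ :=
  Fin.snoc (α := fun _ => (Fin N → ℂ) → ℝ) u (fun x => ell x ^ 2 / 2)

/-- The slots. -/
def hv (u : Fin q → (Fin N → ℂ) → ℝ) (z : Fin (N + 1) → ℂ) :
    Fin (q + 1) → Matrix (Fin (N + 1)) (Fin (N + 1)) ℂ :=
  fun j => hess (fun y => ((ws u j (tl y) : ℝ) : ℂ)) z

/-- The components of the vector field. -/
def TT (S : Form (Fin (N + 1)) p) (u : Fin q → (Fin N → ℂ) → ℝ) (a : Fin (N + 1))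
    (z : Fin (N + 1) → ℂ) : ℂ :=
  mixD (S z) (Fin.cons (α := fun _ => Matrix (Fin (N + 1)) (Fin (N + 1)) ℂ)
    (out (Pi.single a 1) (Pi.single 0 1)) (hv u z))

theorem ws_smooth (h9 : T_W9) {u : Fin q → (Fin N → ℂ) → ℝ} (hu : ∀ j, Pot (u j))
    (j : Fin (q + 1)) : ContDiffOn ℝ ∞ (ws u j) {0}ᶜ := by
  refine Fin.lastCases ?_ (fun i => ?_) j
  · unfold ws
    rw [Fin.snoc_last]
    exact ((h9 (Fin N)).1.pow 2).div_const 2
  · unfold ws
    rw [Fin.snoc_castSucc]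
    exact (hu i).smooth

theorem wsT_smooth (h9 : T_W9) {u : Fin q → (Fin N → ℂ) → ℝ} (hu : ∀ j, Pot (u j))
    (V : Set ℂ) (j : Fin (q + 1)) :
    ContDiffOn ℝ ∞ (fun y : Fin (N + 1) → ℂ => ((ws u j (tl y) : ℝ) : ℂ)) (WV N V) :=
  Complex.ofRealCLM.contDiff.comp_contDiffOn
    ((ws_smooth h9 hu j).comp tl_smooth.contDiffOn fun _ hz => hz.2)

theorem two_le : (2 : WithTop ℕ∞) ≤ ∞ := WithTop.coe_le_coe.2 (le_top : (2 : ℕ∞) ≤ ⊤)

theorem hv_eq (h7 : T_W7) (h9 : T_W9) (u : Fin q → (Fin N → ℂ) → ℝ) {z : Fin (N + 1) → ℂ}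
    (hz : tl z ≠ 0) :
    hv u z = Fin.snoc (α := fun _ => Matrix (Fin (N + 1)) (Fin (N + 1)) ℂ)
      (fun j => hessR (fun z => u j (tl z)) z)
      (((ell (tl z) : ℝ) : ℂ) • hessR ellT z + RadT z) := by
  funext j
  refine Fin.lastCases ?_ (fun i => ?_) j
  · rw [Fin.snoc_last]
    unfold hv ws
    rw [Fin.snoc_last]
    have h1 : ContDiffAt ℝ 2 (ellT : (Fin (N + 1) → ℂ) → ℝ) z := by
      have h2 : ContDiffAt ℝ ∞ (ell : (Fin N → ℂ) → ℝ) (tl z) :=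
        (h9 (Fin N)).1.contDiffAt (isOpen_compl_singleton.mem_nhds hz)
      have h3 : ContDiffAt ℝ ∞ (fun w : Fin (N + 1) → ℂ => ell (tl w)) z :=
        h2.comp z tl_smooth.contDiffAt
      exact h3.of_le two_le
    have h4 : ContDiffAt ℝ 2 (fun t : ℝ => t ^ 2 / 2) (ellT z) :=
      ((contDiff_id.pow 2).div_const 2).contDiffAt
    have h5 := (h7 (Fin (N + 1)) ellT ellT (fun t : ℝ => t ^ 2 / 2) z h1 h1 h4).2.2.1
    have h6 : deriv (fun t : ℝ => t ^ 2 / 2) = fun t => t := by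
      funext t
      have h8 : HasDerivAt (fun t : ℝ => t ^ 2 / 2) (((2 : ℕ) : ℝ) * t ^ (2 - 1) / 2) t :=
        (hasDerivAt_pow 2 t).div_const 2
      rw [h8.deriv]
      push_cast
      ring
    have h7 : deriv (fun t : ℝ => t) (ellT z) = 1 := by
      rw [deriv_id'']
    rw [h6, h7] at h5
    rw [Complex.ofReal_one, one_smul] at h5
    exact h5
  · rw [Fin.snoc_castSucc]
    unfold hv ws
    rw [Fin.snoc_castSucc]
    rfl

theorem radT_sub (h9 : T_W9) {z : Fin (N + 1) → ℂ} (hz : tl z ≠ 0) :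
    (RadT z).submatrix Fin.succ Fin.succ = Rad (tl z) := by
  have h := (h9 (Fin N)).2 (tl z) hz
  funext a b
  have e1 : gd (cx ellT) z a.succ = gd (cx ell) (tl z) a := gd_tl (ell : (Fin N → ℂ) → ℝ) z a
  have e2 : gdb (cx ellT) z b.succ = gdb (cx ell) (tl z) b :=
    gdb_tl (ell : (Fin N → ℂ) → ℝ) z b
  simp only [Matrix.submatrix_apply, RadT, out]
  rw [e1, e2]
  simp only [gd, gdb]
  rw [h.1 a, h.2.1 b, Rad]
  ring

theorem hv_sub (h7 : T_W7) (h9 : T_W9) (u : Fin q → (Fin N → ℂ) → ℝ) {z : Fin (N + 1) → ℂ}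
    (hz : tl z ≠ 0) :
    (fun j => (hv u z j).submatrix Fin.succ Fin.succ) =
      Fin.snoc (α := fun _ => Matrix (Fin N) (Fin N) ℂ) (fun j => hessR (u j) (tl z))
        (((ell (tl z) : ℝ) : ℂ) • hessR ell (tl z) + Rad (tl z)) := by
  funext j
  rw [hv_eq h7 h9 u hz]
  refine Fin.lastCases ?_ (fun i => ?_) j
  · rw [Fin.snoc_last, Fin.snoc_last, ← radT_sub h9 hz, ← hessR_tl (ell : (Fin N → ℂ) → ℝ) z]
    rfl
  · rw [Fin.snoc_castSucc, Fin.snoc_castSucc]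
    exact hessR_tl (u i) z

theorem snoc_lin {ι : Type} [Fintype ι] [DecidableEq ι] (h1 : T_A1) {m : ℕ}
    (S : (Fin p → ι) → (Fin p → ι) → ℂ) (c : ℂ) (A B : Matrix ι ι ℂ)
    (H : Fin m → Matrix ι ι ℂ) :
    mixD S (Fin.snoc (α := fun _ => Matrix ι ι ℂ) H (c • A + B)) =
      c * mixD S (Fin.snoc (α := fun _ => Matrix ι ι ℂ) H A) +
        mixD S (Fin.snoc (α := fun _ => Matrix ι ι ℂ) H B) := by
  have h := (h1 ι p (m + 1) S S (Fin.snoc (α := fun _ => Matrix ι ι ℂ) H 0) (Fin.last m)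
    (c • A) B 0).1
  have h' := (h1 ι p (m + 1) S S (Fin.snoc (α := fun _ => Matrix ι ι ℂ) H 0) (Fin.last m)
    A 0 c).2.1
  rw [Fin.update_snoc_last, Fin.update_snoc_last, Fin.update_snoc_last] at h
  rw [Fin.update_snoc_last, Fin.update_snoc_last] at h'
  rw [h, h']

theorem cs_lin {ι : Type} [Fintype ι] [DecidableEq ι] (h1 : T_A1) {m : ℕ}
    (S : (Fin p → ι) → (Fin p → ι) → ℂ) (c : ℂ) (X A B : Matrix ι ι ℂ)
    (H : Fin m → Matrix ι ι ℂ) :
    mixD S (Fin.cons (α := fun _ => Matrix ι ι ℂ) X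
      (Fin.snoc (α := fun _ => Matrix ι ι ℂ) H (c • A + B))) =
      c * mixD S (Fin.cons (α := fun _ => Matrix ι ι ℂ) X
        (Fin.snoc (α := fun _ => Matrix ι ι ℂ) H A)) +
      mixD S (Fin.cons (α := fun _ => Matrix ι ι ℂ) X
        (Fin.snoc (α := fun _ => Matrix ι ι ℂ) H B)) := by
  have h := (h1 ι p (m + 2) S S (Fin.cons (α := fun _ => Matrix ι ι ℂ) X
    (Fin.snoc (α := fun _ => Matrix ι ι ℂ) H 0)) (Fin.last m).succ (c • A) B 0).1
  have h' := (h1 ι p (m + 2) S S (Fin.cons (α := fun _ => Matrix ι ι ℂ) X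
    (Fin.snoc (α := fun _ => Matrix ι ι ℂ) H 0)) (Fin.last m).succ A 0 c).2.1
  rw [← Fin.cons_update, ← Fin.cons_update, ← Fin.cons_update, Fin.update_snoc_last,
    Fin.update_snoc_last, Fin.update_snoc_last] at h
  rw [← Fin.cons_update, ← Fin.cons_update, Fin.update_snoc_last,
    Fin.update_snoc_last] at h'
  rw [h, h']

/-- The component `0` is `Q`. -/
theorem TT_zero (h7 : T_W7) (h9 : T_W9) (hA1 : T_A1) (hA7 : T_A7) (hA11 : T_A11) (hL2 : T_L2)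
    (hS5 : T_S5) (hTA : T_TA) {V : Set ℂ} (hV : IsOpen V) {S : Form (Fin (N + 1)) p}
    (hS : FormT V S) {u : Fin q → (Fin N → ℂ) → ℝ} (hu : ∀ j, Pot (u j)) (hN : p + q + 1 = N)
    {z : Fin (N + 1) → ℂ} (hz : z ∈ WV N V) :
    TT S u 0 z = ((Q (res S (z 0)) u (tl z) : ℝ) : ℂ) := by
  have hout : out (Pi.single 0 1) (Pi.single 0 1) =
      (Matrix.single 0 0 1 : Matrix (Fin (N + 1)) (Fin (N + 1)) ℂ) := by
    funext a b
    simp only [out, Matrix.single_apply, Pi.single_apply]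
    by_cases ha : a = 0 <;> by_cases hb : b = 0 <;> simp [ha, hb, eq_comm]
  have hp : ProjForm (res S (z 0)) := (hTA N p V (z 0) hV hz.1).1 S hS
  have h1 : (fun I J => S z (fun l => (I l).succ) (fun l => (J l).succ)) =
      res S (z 0) (tl z) := by
    unfold res
    rw [ct_tl]
  unfold TT
  rw [hout, hA11 N p (q + 1) (S z) (hv u z), hv_sub h7 h9 u hz.2, h1, snoc_lin hA1,
    (hS5 N p q (res S (z 0)) u (fun _ => 1) hN hp fun j => lh_of_pot (hu j)).2.2 (tl z) hz.2]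
  have h2 : mixD (res S (z 0) (tl z)) (Fin.snoc (α := fun _ => Matrix (Fin N) (Fin N) ℂ)
      (fun j => hessR (u j) (tl z)) (hessR ell (tl z))) = 0 := by
    refine hA7 (Fin N) p (q + 1) _ _ (tl z) hz.2 (fun I J j => hp.basicL (tl z) hz.2 I J j) ?_
    intro j
    refine Fin.lastCases ?_ (fun i => ?_) j
    · rw [Fin.snoc_last]
      exact (hL2 N 1 ell (lh_ell h9) (tl z) hz.2).2.2.1
    · rw [Fin.snoc_castSucc]
      exact (hL2 N 1 (u i) (lh_of_pot (hu i)) (tl z) hz.2).2.2.1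
  rw [h2, mul_zero, zero_add]

theorem TT_comb (hA1 : T_A1) (S : Form (Fin (N + 1)) p) (u : Fin q → (Fin N → ℂ) → ℝ)
    (z : Fin (N + 1) → ℂ) (y : Fin (N + 1) → ℂ) (hy : y 0 = 0) :
    ∑ i : Fin N, y i.succ * TT S u i.succ z =
      mixD (S z) (Fin.cons (α := fun _ => Matrix (Fin (N + 1)) (Fin (N + 1)) ℂ)
        (out y (Pi.single 0 1)) (hv u z)) := by
  rw [s_out_left y (Pi.single 0 1), s_cons_sum hA1, Fin.sum_univ_succ, hy, zero_mul, zero_add]
  rfl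

theorem slot_zero (h0 : T_W0) (h1 : T_W1) (h5 : T_W5) (h6 : T_W6) (h8 : T_W8)
    (hA9 : T_A9) {V : Set ℂ} (hV : IsOpen V) {S : Form (Fin (N + 1)) p}
    (hS : FormT V S) {u : Fin q → (Fin N → ℂ) → ℝ} (hu : ∀ j, Pot (u j))
    {z : Fin (N + 1) → ℂ} (hz : z ∈ WV N V) (y : Fin (N + 1) → ℂ) :
    mixD (S z) (Fin.cons (α := fun _ => Matrix (Fin (N + 1)) (Fin (N + 1)) ℂ)
        (out y (Pi.single 0 1)) (Fin.snoc (α := fun _ => Matrix (Fin (N + 1)) (Fin (N + 1)) ℂ)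
      (fun j => hessR (fun z => u j (tl z)) z) (hessR ellT z))) = 0 := by
  have hne : ct 0 (tl z) ≠ 0 := by
    intro h
    apply hz.2
    have := congrArg tl h
    rw [tl_ct] at this
    exact this
  refine hA9 (Fin (N + 1)) p (q + 2) (S z) _ 0 (ct 0 (tl z)) hne (hS.kilL z hz) (hS.kilR z hz)
    ?_ ?_
  · intro j hj
    obtain ⟨j', rfl⟩ := Fin.exists_succ_eq.2 hj
    rw [Fin.cons_succ]
    refine Fin.lastCases ?_ (fun i => ?_) j'
    · rw [Fin.snoc_last]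
      have hz' : z ∈ WV N Set.univ := ⟨Set.mem_univ _, hz.2⟩
      obtain ⟨e1, e2, -⟩ := t_kill h0 h1 h5 h6 h8 isOpen_univ ellT_LHT hz'
      exact ⟨e1, e2⟩
    · rw [Fin.snoc_castSucc]
      obtain ⟨e1, e2, -⟩ := t_kill h0 h1 h5 h6 h8 hV (lht_of_lh (lh_of_pot (hu i))) hz
      exact ⟨e1, e2⟩
  · rw [Fin.cons_zero]
    refine Finset.sum_eq_zero fun a _ => Finset.sum_eq_zero fun b _ => ?_
    unfold out
    refine Fin.cases ?_ (fun i => ?_) b
    · have : ct 0 (tl z) 0 = 0 := rfl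
      rw [this, map_zero, mul_zero]
    · rw [Pi.single_eq_of_ne (Fin.succ_ne_zero i), mul_zero, mul_zero, zero_mul]

theorem TT_kappa (h0 : T_W0) (h1 : T_W1) (h5 : T_W5) (h6 : T_W6) (h7 : T_W7) (h8 : T_W8)
    (h9 : T_W9) (hA1 : T_A1) (hA9 : T_A9) {V : Set ℂ} (hV : IsOpen V)
    {S : Form (Fin (N + 1)) p} (hS : FormT V S) {u : Fin q → (Fin N → ℂ) → ℝ}
    (hu : ∀ j, Pot (u j)) (κ : (Fin N → ℂ) → ℝ) {z : Fin (N + 1) → ℂ} (hz : z ∈ WV N V) :
    ∑ i : Fin N, wd i (cx κ) (tl z) * TT S u i.succ z = PsiT S κ u z := by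
  have e1 := TT_comb hA1 S u z (gd (cx fun z => κ (tl z)) z) (gd_tl_zero κ z)
  have e2 : ∑ i : Fin N, wd i (cx κ) (tl z) * TT S u i.succ z =
      ∑ i : Fin N, gd (cx fun z => κ (tl z)) z i.succ * TT S u i.succ z :=
    Finset.sum_congr rfl fun i _ => by rw [gd_tl]; rfl
  rw [e2, e1, hv_eq h7 h9 u hz.2, cs_lin hA1, slot_zero h0 h1 h5 h6 h8 hA9 hV hS hu hz,
    mul_zero, zero_add]
  rfl

theorem TT_ell (h0 : T_W0) (h1 : T_W1) (h5 : T_W5) (h6 : T_W6) (h7 : T_W7) (h8 : T_W8)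
    (h9 : T_W9) (hA1 : T_A1) (hA9 : T_A9) (hA10 : T_A10) {V : Set ℂ} (hV : IsOpen V)
    {S : Form (Fin (N + 1)) p} (hS : FormT V S) {u : Fin q → (Fin N → ℂ) → ℝ}
    (hu : ∀ j, Pot (u j)) {z : Fin (N + 1) → ℂ} (hz : z ∈ WV N V) :
    ∑ i : Fin N, wd i (cx ell) (tl z) * TT S u i.succ z = 0 := by
  have e1 := TT_comb hA1 S u z (gd (cx ellT) z) (gd_tl_zero (ell : (Fin N → ℂ) → ℝ) z)
  have e2 : ∑ i : Fin N, wd i (cx ell) (tl z) * TT S u i.succ z =
      ∑ i : Fin N, gd (cx ellT) z i.succ * TT S u i.succ z :=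
    Finset.sum_congr rfl fun i _ => by
      have := gd_tl (ell : (Fin N → ℂ) → ℝ) z i
      rw [show gd (cx ellT) z i.succ = gd (cx ell) (tl z) i from this]
      rfl
  rw [e2, e1, hv_eq h7 h9 u hz.2, cs_lin hA1, slot_zero h0 h1 h5 h6 h8 hA9 hV hS hu hz,
    mul_zero, zero_add]
  refine (hA10 (Fin (N + 1)) p (q + 2) (S z) _ 0 (Fin.last q).succ (gd (cx ellT) z)
    (Pi.single 0 1) (gdb (cx ellT) z) (Fin.succ_ne_zero _).symm).1 ?_ ?_
  · rw [Fin.cons_zero]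
  · rw [Fin.cons_succ, Fin.snoc_last]
    rfl

end two

section three

variable {N p q : ℕ}

theorem wd_coord0 (b : Fin (N + 1)) (z : Fin (N + 1) → ℂ) :
    wd b (fun w : Fin (N + 1) → ℂ => w 0) z = (Pi.single 0 1 : Fin (N + 1) → ℂ) b := by
  unfold wd
  have h : fderiv ℝ (fun w : Fin (N + 1) → ℂ => w 0) z = ContinuousLinearMap.proj (R := ℝ) 0 :=
    (ContinuousLinearMap.proj (R := ℝ) (φ := fun _ : Fin (N + 1) => ℂ) 0).hasFDerivAt.fderiv
  rw [h]
  simp only [ContinuousLinearMap.proj_apply]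
  refine Fin.cases ?_ (fun i => ?_) b
  · rw [Pi.single_eq_same, Pi.single_eq_same, Complex.I_mul_I]
    simp
  · rw [Pi.single_eq_of_ne (Fin.succ_ne_zero i).symm, Pi.single_eq_of_ne (Fin.succ_ne_zero i).symm,
      Pi.single_eq_of_ne (Fin.succ_ne_zero i)]
    simp

theorem gdb_conj0 (h1 : T_W1) (z : Fin (N + 1) → ℂ) :
    gdb (fun w : Fin (N + 1) → ℂ => conj (w 0)) z = Pi.single 0 1 := by
  funext b
  have hd : DifferentiableAt ℝ (fun w : Fin (N + 1) → ℂ => w 0) z :=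
    (ContinuousLinearMap.proj (R := ℝ) (φ := fun _ : Fin (N + 1) => ℂ) 0).differentiableAt
  have h := (h1 (Fin (N + 1)) b (fun w => w 0) (fun w => w 0) z hd hd).2.2.2.2.2
  unfold gdb
  rw [h, wd_coord0]
  refine Fin.cases ?_ (fun i => ?_) b
  · rw [Pi.single_eq_same, map_one]
  · rw [Pi.single_eq_of_ne (Fin.succ_ne_zero i), map_zero]

theorem hess_conj0 (h1 : T_W1) (z : Fin (N + 1) → ℂ) :
    hess (fun w : Fin (N + 1) → ℂ => conj (w 0)) z = 0 := by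
  funext a b
  unfold hess
  have h : (fun w => wdb b (fun w : Fin (N + 1) → ℂ => conj (w 0)) w) =
      fun _ => (Pi.single 0 1 : Fin (N + 1) → ℂ) b := by
    funext w
    exact congrFun (gdb_conj0 h1 w) b
  rw [h]
  exact (l2_const a _ z).1

theorem TT_smooth (h9 : T_W9) {V : Set ℂ} (hV : IsOpen V)
    {S : Form (Fin (N + 1)) p} (hS : FormT V S) {u : Fin q → (Fin N → ℂ) → ℝ}
    (hu : ∀ j, Pot (u j)) (a : Fin (N + 1)) : ContDiffOn ℝ ∞ (TT S u a) (WV N V) := by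
  refine s_mix hS.cf.smooth (fun _ => out (Pi.single a 1) (Pi.single 0 1))
    (fun _ _ => contDiffOn_const)
    (fun j z => hess (fun y => ((ws u j (tl y) : ℝ) : ℂ)) z) (fun j x y => ?_)
  exact s_hess_sm (open_WV hV) (wsT_smooth h9 hu V j) x y

/-- The divergence identity. -/
theorem TT_div (h1 : T_W1) (h9 : T_W9) (hA1 : T_A1) (hS1 : T_S1) {V : Set ℂ} (hV : IsOpen V)
    {S : Form (Fin (N + 1)) p} (hS : FormT V S) {u : Fin q → (Fin N → ℂ) → ℝ}
    (hu : ∀ j, Pot (u j)) {z : Fin (N + 1) → ℂ} (hz : z ∈ WV N V) :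
    wd 0 (TT S u 0) z = - ∑ i : Fin N, wd i.succ (TT S u i.succ) z := by
  have hf : ContDiffOn ℝ ∞ (fun w : Fin (N + 1) → ℂ => conj (w 0)) (WV N V) :=
    (Complex.conjCLE.contDiff.comp (contDiff_apply ℝ ℂ (0 : Fin (N + 1)))).contDiffOn
  have h := (hS1 (Fin (N + 1)) p (q + 1) (WV N V) S (fun w => conj (w 0))
    (fun j y => ((ws u j (tl y) : ℝ) : ℂ)) (open_WV hV) hS.cf hf
    (fun j => wsT_smooth h9 hu V j) z hz).1
  rw [hess_conj0 h1, s_cons_zero hA1] at h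
  simp only [gdb_conj0 h1] at h
  change ∑ a, wd a (TT S u a) z = 0 at h
  rw [Fin.sum_univ_succ] at h
  exact eq_neg_of_add_eq_zero_left h

/-- The cut-off function. -/
structure Cut (θ : ℝ → ℝ) : Prop where
  smooth : ContDiff ℝ ∞ θ
  lo : ∀ t, t ≤ 0 → θ t = 0
  hi : ∀ t, 1 ≤ t → θ t = 0
  int : Integrable θ
  one : ∫ t, θ t = 1

theorem exists_cut : ∃ θ : ℝ → ℝ, Cut θ := by
  let f : ContDiffBump (1 / 2 : ℝ) := ⟨1 / 8, 1 / 4, by norm_num, by norm_num⟩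
  have hs : ∀ t, t ∉ Metric.ball (1 / 2 : ℝ) (1 / 4) → f.normed volume t = 0 := by
    intro t ht
    by_contra hne
    apply ht
    have h1 : t ∈ Function.support (f.normed volume) := hne
    rw [ContDiffBump.support_normed_eq] at h1
    exact h1
  refine ⟨f.normed volume, f.contDiff_normed, ?_, ?_, f.integrable_normed, f.integral_normed⟩
  · intro t ht
    apply hs
    rw [Metric.mem_ball, Real.dist_eq, not_lt]
    rw [abs_of_nonpos (by linarith)]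
    linarith
  · intro t ht
    apply hs
    rw [Metric.mem_ball, Real.dist_eq, not_lt]
    rw [abs_of_nonneg (by linarith)]
    linarith

theorem cut_zero {θ : ℝ → ℝ} (hθ : Cut θ) {x : Fin N → ℂ} (hx : x ∉ shc N) : θ (ell x) = 0 := by
  have hn : 0 ≤ nsq x := Finset.sum_nonneg fun _ _ => by positivity
  rcases lt_or_ge (nsq x) 1 with h | h
  · apply hθ.lo
    unfold ell
    have := Real.log_nonpos hn h.le
    linarith
  · have h2 : Real.exp 2 < nsq x := by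
      by_contra h2
      exact hx ⟨h, not_lt.1 h2⟩
    apply hθ.hi
    unfold ell
    have h3 : 2 ≤ Real.log (nsq x) := by
      rw [Real.le_log_iff_exp_le (by linarith)]
      exact h2.le
    linarith

theorem shc_sub : shc N ⊆ {0}ᶜ := by
  intro x hx h0
  rw [Set.mem_singleton_iff] at h0
  subst h0
  have := hx.1
  simp [nsq] at this
  linarith

/-- The weight. -/
def wt (θ : ℝ → ℝ) (κ : (Fin N → ℂ) → ℝ) (x : Fin N → ℂ) : ℝ := θ (ell x) * κ x

theorem wt_zero {θ : ℝ → ℝ} (hθ : Cut θ) (κ : (Fin N → ℂ) → ℝ) {x : Fin N → ℂ}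
    (hx : x ∉ shc N) : wt θ κ x = 0 := by
  unfold wt
  rw [cut_zero hθ hx, zero_mul]

theorem wt_smooth (h9 : T_W9) {θ : ℝ → ℝ} (hθ : Cut θ) {κ : (Fin N → ℂ) → ℝ} (hκ : Hom0 κ) :
    ContDiffOn ℝ ∞ (cx (wt θ κ)) {0}ᶜ :=
  Complex.ofRealCLM.contDiff.comp_contDiffOn
    ((hθ.smooth.comp_contDiffOn (h9 (Fin N)).1).mul hκ.smooth)

theorem wd_wt (h1 : T_W1) (h7 : T_W7) (h9 : T_W9) {θ : ℝ → ℝ} (hθ : Cut θ)
    {κ : (Fin N → ℂ) → ℝ} (hκ : Hom0 κ) {x : Fin N → ℂ} (hx : x ≠ 0) (i : Fin N) :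
    wd i (cx (wt θ κ)) x = ((θ (ell x) : ℝ) : ℂ) * wd i (cx κ) x +
      ((κ x * deriv θ (ell x) : ℝ) : ℂ) * wd i (cx ell) x := by
  have hnh : ({0}ᶜ : Set (Fin N → ℂ)) ∈ 𝓝 x := isOpen_compl_singleton.mem_nhds hx
  have e0 : cx (wt θ κ) = fun w => (cx fun w => θ (ell w)) w * cx κ w := by
    funext w
    show ((θ (ell w) * κ w : ℝ) : ℂ) = ((θ (ell w) : ℝ) : ℂ) * ((κ w : ℝ) : ℂ)
    push_cast
    rfl
  have hl : ContDiffAt ℝ ∞ (ell : (Fin N → ℂ) → ℝ) x := (h9 (Fin N)).1.contDiffAt hnh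
  have hd1 : DifferentiableAt ℝ (cx fun w : Fin N → ℂ => θ (ell w)) x := by
    have h2 : ContDiffAt ℝ ∞ (fun w : Fin N → ℂ => θ (ell w)) x :=
      hθ.smooth.contDiffAt.comp x hl
    exact (Complex.ofRealCLM.contDiff.contDiffAt.comp x h2).differentiableAt (by simp)
  have hd2 : DifferentiableAt ℝ (cx κ) x :=
    (Complex.ofRealCLM.contDiff.contDiffAt.comp x (hκ.smooth.contDiffAt hnh)).differentiableAt
      (by simp)
  rw [e0, (h1 (Fin N) i _ _ x hd1 hd2).2.2.1,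
    (h7 (Fin N) ell ell θ x (hl.of_le two_le) (hl.of_le two_le)
      (hθ.smooth.contDiffAt.of_le two_le)).1 i]
  show ((θ (ell x) : ℝ) : ℂ) * _ + ((κ x : ℝ) : ℂ) * _ = _
  push_cast
  ring

theorem aux1 (a b c d e : ℂ) : a * (b * c + d * e) = b * (c * a) + d * (e * a) := by ring

theorem aux2 (a s b p d : ℂ) : a * -s = b * p - (a * s + (b * p + d * 0)) := by ring

/-- Integration by parts. -/
theorem ibp (h0 : T_W0) (h1 : T_W1) (h5 : T_W5) (h6 : T_W6) (h7 : T_W7) (h8 : T_W8)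
    (h9 : T_W9) (hA1 : T_A1) (hA9 : T_A9) (hA10 : T_A10) (hS0 : T_S0) (hS1 : T_S1)
    {V : Set ℂ} (hV : IsOpen V)
    {S : Form (Fin (N + 1)) p} (hS : FormT V S) {u : Fin q → (Fin N → ℂ) → ℝ}
    (hu : ∀ j, Pot (u j)) {θ : ℝ → ℝ} (hθ : Cut θ)
    {κ : (Fin N → ℂ) → ℝ} (hκ : Hom0 κ) {t : ℂ} (ht : t ∈ V) :
    ∫ x : Fin N → ℂ, cx (wt θ κ) x * wd 0 (TT S u 0) (ct t x) =
      ∫ x : Fin N → ℂ, ((θ (ell x) : ℝ) : ℂ) * PsiT S κ u (ct t x) := by
  set K : Set (Fin N → ℂ) := shc N with hK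
  have hKc : IsCompact K := shc_compact
  have hKU : K ⊆ {0}ᶜ := shc_sub
  have hU : IsOpen ({0}ᶜ : Set (Fin N → ℂ)) := isOpen_compl_singleton
  have hw := wt_smooth h9 hθ hκ
  have hw0 : ∀ x, x ∉ K → cx (wt θ κ) x = 0 := fun x hx => by
    show ((wt θ κ x : ℝ) : ℂ) = 0
    rw [wt_zero hθ κ hx, Complex.ofReal_zero]
  have hG : ∀ a, ContDiffOn ℝ ∞ (fun x : Fin N → ℂ => TT S u a (ct t x)) {0}ᶜ := fun a =>
    (TT_smooth h9 hV hS hu a).comp (ct_smooth t).contDiffOn fun x hx => ct_mem ht hx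
  have hD : ContDiffOn ℝ ∞ (fun x : Fin N → ℂ => wd 0 (TT S u 0) (ct t x)) {0}ᶜ :=
    (h6 (Fin (N + 1)) 0 _ _ (open_WV hV) (TT_smooth h9 hV hS hu 0)).1.comp
      (ct_smooth t).contDiffOn fun x hx => ct_mem ht hx
  have hg : ∀ i : Fin N, ContDiff ℝ ∞ (fun x => cx (wt θ κ) x * TT S u i.succ (ct t x)) ∧
      HasCompactSupport (fun x => cx (wt θ κ) x * TT S u i.succ (ct t x)) ∧
      Integrable (fun x => cx (wt θ κ) x * TT S u i.succ (ct t x)) := fun i =>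
    s_glob hU hKc hKU (hw.mul (hG i.succ)) fun x hx => by rw [hw0 x hx, zero_mul]
  have hi1 : Integrable (fun x => cx (wt θ κ) x * wd 0 (TT S u 0) (ct t x)) :=
    (s_glob hU hKc hKU (hw.mul hD) fun x hx => by rw [hw0 x hx, zero_mul]).2.2
  have hid : ∀ x, cx (wt θ κ) x * wd 0 (TT S u 0) (ct t x) =
      ((θ (ell x) : ℝ) : ℂ) * PsiT S κ u (ct t x) -
        ∑ i : Fin N, wd i (fun x => cx (wt θ κ) x * TT S u i.succ (ct t x)) x := by
    intro x
    by_cases hx : x ∈ K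
    · have hx0 : x ≠ 0 := hKU hx
      have hz : ct t x ∈ WV N V := ct_mem ht hx0
      have hp : ∀ i : Fin N, wd i (fun x => cx (wt θ κ) x * TT S u i.succ (ct t x)) x =
          cx (wt θ κ) x * wd i.succ (TT S u i.succ) (ct t x) +
            TT S u i.succ (ct t x) * wd i (cx (wt θ κ)) x := by
        intro i
        have hd : DifferentiableAt ℝ (TT S u i.succ) (ct t x) :=
          ((TT_smooth h9 hV hS hu i.succ).contDiffAt ((open_WV hV).mem_nhds hz)).differentiableAt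
            (by simp)
        rw [(h1 (Fin N) i (cx (wt θ κ)) (fun x => TT S u i.succ (ct t x)) x
          ((hw.contDiffAt (hU.mem_nhds hx0)).differentiableAt (by simp))
          (((hG i.succ).contDiffAt (hU.mem_nhds hx0)).differentiableAt (by simp))).2.2.1,
          wd_ct _ t x i hd]
      rw [Finset.sum_congr rfl fun i _ => hp i, Finset.sum_add_distrib, ← Finset.mul_sum,
        TT_div h1 h9 hA1 hS1 hV hS hu hz]
      have e1 : ∑ i : Fin N, TT S u i.succ (ct t x) * wd i (cx (wt θ κ)) x =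
          ((θ (ell x) : ℝ) : ℂ) * ∑ i : Fin N, wd i (cx κ) x * TT S u i.succ (ct t x) +
          ((κ x * deriv θ (ell x) : ℝ) : ℂ) *
            ∑ i : Fin N, wd i (cx ell) x * TT S u i.succ (ct t x) := by
        rw [Finset.mul_sum, Finset.mul_sum, ← Finset.sum_add_distrib]
        refine Finset.sum_congr rfl fun i _ => ?_
        rw [wd_wt h1 h7 h9 hθ hκ hx0 i]
        exact aux1 _ _ _ _ _
      have e2 := TT_kappa h0 h1 h5 h6 h7 h8 h9 hA1 hA9 hV hS hu κ hz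
      have e3 := TT_ell h0 h1 h5 h6 h7 h8 h9 hA1 hA9 hA10 hV hS hu hz
      rw [tl_ct] at e2 e3
      rw [e1, e2, e3]
      exact aux2 _ _ _ _ _
    · rw [hw0 x hx, cut_zero hθ hx, zero_mul, Complex.ofReal_zero, zero_mul, zero_sub,
        zero_eq_neg]
      refine Finset.sum_eq_zero fun i _ =>
        (s_wd_zero hKc.isClosed (fun w hw' => ?_) i x hx).1
      show cx (wt θ κ) w * _ = 0
      rw [hw0 w hw', zero_mul]
  have hi3 : ∀ i : Fin N,
      Integrable (fun x => wd i (fun x => cx (wt θ κ) x * TT S u i.succ (ct t x)) x) := by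
    intro i
    refine (s_glob hU hKc hKU ?_ fun x hx => ?_).2.2
    · exact (h6 (Fin N) i _ _ hU (hg i).1.contDiffOn).1
    · refine (s_wd_zero hKc.isClosed (fun w hw' => ?_) i x hx).1
      show cx (wt θ κ) w * _ = 0
      rw [hw0 w hw', zero_mul]
  have hi4 : Integrable
      (fun x => ∑ i : Fin N, wd i (fun x => cx (wt θ κ) x * TT S u i.succ (ct t x)) x) :=
    integrable_finsetSum _ fun i _ => hi3 i
  have hi2 : Integrable (fun x : Fin N → ℂ => ((θ (ell x) : ℝ) : ℂ) * PsiT S κ u (ct t x)) := by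
    refine (hi1.add hi4).congr (Eventually.of_forall fun x => ?_)
    show cx (wt θ κ) x * wd 0 (TT S u 0) (ct t x) +
      ∑ i : Fin N, wd i (fun x => cx (wt θ κ) x * TT S u i.succ (ct t x)) x = _
    rw [hid x, sub_add_cancel]
  rw [integral_congr_ae (Eventually.of_forall hid), integral_sub hi2 hi4,
    integral_finsetSum _ fun i _ => hi3 i,
    Finset.sum_eq_zero fun i _ => (hS0 (Fin N) _ i ((hg i).1.of_le (by simp)) (hg i).2.1).1,
    sub_zero]

end three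

section four

variable {N p q : ℕ}

/-- The slots of `PsiT`. -/
def sP (u : Fin q → (Fin N → ℂ) → ℝ) (j : Fin (q + 1)) (z : Fin (N + 1) → ℂ) :
    Matrix (Fin (N + 1)) (Fin (N + 1)) ℂ :=
  Fin.snoc (α := fun _ => Matrix (Fin (N + 1)) (Fin (N + 1)) ℂ)
      (fun j => hessR (fun z => u j (tl z)) z) (RadT z) j

theorem sP_last (u : Fin q → (Fin N → ℂ) → ℝ) (z : Fin (N + 1) → ℂ) :
    sP u (Fin.last q) z = RadT z := by
  unfold sP
  rw [Fin.snoc_last]

theorem sP_cast (u : Fin q → (Fin N → ℂ) → ℝ) (i : Fin q) (z : Fin (N + 1) → ℂ) :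
    sP u i.castSucc z = hessR (fun z => u i (tl z)) z := by
  unfold sP
  rw [Fin.snoc_castSucc]

theorem PsiT_eq (S : Form (Fin (N + 1)) p) (κ : (Fin N → ℂ) → ℝ)
    (u : Fin q → (Fin N → ℂ) → ℝ) (z : Fin (N + 1) → ℂ) : PsiT S κ u z =
    mixD (S z) (Fin.cons (α := fun _ => Matrix (Fin (N + 1)) (Fin (N + 1)) ℂ)
      (out (gd (cx fun z => κ (tl z)) z) (Pi.single 0 1)) (fun j => sP u j z)) := rfl

theorem PsiT_cont (h6 : T_W6) (h9 : T_W9) {V : Set ℂ} (hV : IsOpen V)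
    {S : Form (Fin (N + 1)) p} (hS : FormT V S) {u : Fin q → (Fin N → ℂ) → ℝ}
    (hu : ∀ j, Pot (u j)) {κ : (Fin N → ℂ) → ℝ} (hκ : Hom0 κ) :
    ContinuousOn (fun z => PsiT S κ u z) (WV N V) := by
  have hκT : ContDiffOn ℝ ∞ (cx fun z : Fin (N + 1) → ℂ => κ (tl z)) (WV N V) :=
    t_smooth (lht_of_lh (lh_of_hom hκ))
  have heT : ContDiffOn ℝ ∞ (cx (ellT : (Fin (N + 1) → ℂ) → ℝ)) (WV N V) :=
    t_smooth (lht_of_lh (lh_ell h9))
  have h := s_mix hS.cf.smooth (fun z => out (gd (cx fun z => κ (tl z)) z) (Pi.single 0 1))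
    (fun x y => ?_) (fun j z => sP u j z) (fun j x y => ?_)
  · exact h.continuousOn
  · exact (h6 (Fin (N + 1)) x _ _ (open_WV hV) hκT).1.mul contDiffOn_const
  · refine Fin.lastCases ?_ (fun i => ?_) j
    · simp only [sP_last]
      exact (h6 (Fin (N + 1)) x _ _ (open_WV hV) heT).1.mul
        (h6 (Fin (N + 1)) y _ _ (open_WV hV) heT).2
    · simp only [sP_cast]
      exact s_hess_sm (open_WV hV) (t_smooth (lht_of_lh (lh_of_pot (hu i)))) x y

theorem PsiT_hom (h0 : T_W0) (h1 : T_W1) (h6 : T_W6) {V : Set ℂ} (hV : IsOpen V)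
    {S : Form (Fin (N + 1)) p} (hS : FormT V S) {u : Fin q → (Fin N → ℂ) → ℝ}
    (hu : ∀ j, Pot (u j)) {κ : (Fin N → ℂ) → ℝ} (hκ : Hom0 κ) {z : Fin (N + 1) → ℂ}
    (hz : z ∈ WV N V) {l : ℂ} (hl : l ≠ 0) :
    PsiT S κ u (ct (z 0) (l • tl z)) = (((‖l‖ ^ (2 * N))⁻¹ : ℝ) : ℂ) * PsiT S κ u z := by
  have d1 : ∀ a : Fin (N + 1), (dg N l a)⁻¹ = if a = 0 then 1 else l⁻¹ := by
    intro a
    unfold dg; split_ifs <;> simp
  have d2 : ∀ b : Fin (N + 1), (conj (dg N l b))⁻¹ = if b = 0 then 1 else (conj l)⁻¹ := by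
    intro b
    unfold dg; split_ifs <;> simp
  have h := mixD_scale (S z) (S (ct (z 0) (l • tl z)))
    (Fin.cons (α := fun _ => Matrix (Fin (N + 1)) (Fin (N + 1)) ℂ)
      (out (gd (cx fun z => κ (tl z)) z) (Pi.single 0 1)) (fun j => sP u j z))
    (Fin.cons (α := fun _ => Matrix (Fin (N + 1)) (Fin (N + 1)) ℂ)
      (out (gd (cx fun z => κ (tl z)) (ct (z 0) (l • tl z))) (Pi.single 0 1))
      (fun j => sP u j (ct (z 0) (l • tl z))))
    (fun a => if a = 0 then 1 else l⁻¹) (fun a => if a = 0 then 1 else (conj l)⁻¹)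
    (fun I J => hS.hom l z hl hz I J) (by
      intro j a b
      refine Fin.cases ?_ (fun j' => ?_) j
      · rw [Fin.cons_zero, Fin.cons_zero]
        have e1 := (t_hom1 h0 hV (lht_of_lh (V := V) (lh_of_hom hκ)) hz hl a).1
        rw [d1 a] at e1
        show wd a (cx fun z => κ (tl z)) (ct (z 0) (l • tl z)) *
          (Pi.single 0 1 : Fin (N + 1) → ℂ) b = _ *
          (wd a (cx fun z => κ (tl z)) z * (Pi.single 0 1 : Fin (N + 1) → ℂ) b)
        rw [e1]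
        refine Fin.cases ?_ (fun i => ?_) b
        · rw [if_pos rfl, mul_one]
          ring
        · rw [Pi.single_eq_of_ne (Fin.succ_ne_zero i)]
          ring
      · rw [Fin.cons_succ, Fin.cons_succ, ← d1 a, ← d2 b]
        refine Fin.lastCases ?_ (fun i => ?_) j'
        · rw [sP_last, sP_last]
          exact RadT_move h0 hz.2 hl a b
        · rw [sP_cast, sP_cast]
          exact t_hess h0 h1 h6 hV (lht_of_lh (V := V) (lh_of_pot (hu i))) hz hl a b)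
  have e3 : (∏ i : Fin (N + 1), if i = 0 then (1 : ℂ) else l⁻¹) *
      (∏ i : Fin (N + 1), if i = 0 then (1 : ℂ) else (conj l)⁻¹) =
      (((‖l‖ ^ (2 * N))⁻¹ : ℝ) : ℂ) := by
    rw [Fin.prod_univ_succ, Fin.prod_univ_succ]
    simp only [Fin.succ_ne_zero, if_true, if_false, one_mul, Finset.prod_const,
      Finset.card_univ, Fintype.card_fin]
    rw [← mul_pow, ← mul_inv, Complex.mul_conj, Complex.normSq_eq_norm_sq, pow_mul]
    push_cast
    rw [inv_pow]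
  rw [PsiT_eq, PsiT_eq, h, e3]

theorem meas_of_cont {ψ : (Fin N → ℂ) → ℝ} (h : ContinuousOn ψ {0}ᶜ) : Measurable ψ := by
  refine measurable_of_measurable_on_compl_singleton 0 ?_
  exact (continuousOn_iff_continuous_domRestrict.1 h).measurable

theorem int_shell (hN : 0 < N) {ψ : (Fin N → ℂ) → ℝ} (h : ContinuousOn ψ {0}ᶜ) :
    IntegrableOn ψ {z : Fin N → ℂ | 0 ≤ ell z ∧ ell z < 1} := by
  obtain ⟨n, rfl⟩ : ∃ n, N = n + 1 := ⟨N - 1, by omega⟩
  have h1 : IntegrableOn ψ (shc (n + 1)) :=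
    (h.mono shc_sub).integrableOn_compact shc_compact
  have h2 : IntegrableOn ψ (Pool.Agent.H50.EQ.sho (n + 1)) :=
    h1.mono_set Pool.Agent.H50.EQ.sho_sub
  exact h2.congr_set_ae (sdiff_null_ae_eq_self (measure_singleton (0 : Fin (n + 1) → ℂ))).symm

theorem Iint_cut (hS4 : T_S4) (hN : 0 < N) {θ : ℝ → ℝ} (hθ : Cut θ) {ψ : (Fin N → ℂ) → ℝ}
    (h : ContinuousOn ψ {0}ᶜ)
    (hh : ∀ (r : ℝ) (z : Fin N → ℂ), 0 < r → z ≠ 0 →
      ψ ((r : ℂ) • z) = (r ^ (2 * N))⁻¹ * ψ z) :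
    Iint ψ = ∫ x : Fin N → ℂ, θ (ell x) * ψ x := by
  have h1 := (hS4 N ψ (fun _ => 0) 1 θ hN one_pos (meas_of_cont h) measurable_const
    (int_shell hN h) hh (fun _ _ _ _ => rfl) hθ.smooth.continuous.measurable hθ.int).2
  rw [hθ.one, inv_one, one_mul, one_mul] at h1
  rw [← h1]
  refine integral_congr_ae (Eventually.of_forall fun x => ?_)
  show ψ x * θ (1 * ell x + 0) = θ (ell x) * ψ x
  rw [one_mul, add_zero, mul_comm]

end four

section five

variable {N p q : ℕ}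

/-- The derivative in `t` of the component `0`. -/
theorem TT_deriv (h0 : T_W0) (h7 : T_W7) (h8 : T_W8) (h9 : T_W9) (hA1 : T_A1) (hA7 : T_A7)
    (hA11 : T_A11) (hL2 : T_L2) (hS5 : T_S5) (hTA : T_TA) {V : Set ℂ} (hV : IsOpen V)
    {S : Form (Fin (N + 1)) p} (hS : FormT V S) {u : Fin q → (Fin N → ℂ) → ℝ}
    (hu : ∀ j, Pot (u j)) (hN : p + q + 1 = N) {s : ℝ} (hs : (s : ℂ) ∈ V) {x : Fin N → ℂ}
    (hx : x ≠ 0) :
    HasDerivAt (fun s : ℝ => TT S u 0 (ct (s : ℂ) x))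
      (((2 * (wd 0 (TT S u 0) (ct (s : ℂ) x)).re : ℝ)) : ℂ) s := by
  have hz : ct (s : ℂ) x ∈ WV N V := ct_mem hs hx
  have hnh := (open_WV hV).mem_nhds hz
  have hd : DifferentiableAt ℝ (TT S u 0) (ct (s : ℂ) x) :=
    ((TT_smooth h9 hV hS hu 0).contDiffAt hnh).differentiableAt (by simp)
  have h2 : HasDerivAt (fun s : ℝ => TT S u 0 (ct (s : ℂ) x))
      (fderiv ℝ (TT S u 0) (ct (s : ℂ) x) (Pi.single 0 1)) s := by
    have hd' : HasFDerivAt (TT S u 0) (fderiv ℝ (TT S u 0) (ct (s : ℂ) x))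
      ((fun s : ℝ => ct (s : ℂ) x) s) := hd.hasFDerivAt
    exact hd'.comp_hasDerivAt s (ct_deriv x s)
  have h3 : fderiv ℝ (TT S u 0) (ct (s : ℂ) x) (Pi.single 0 1) =
      wd 0 (TT S u 0) (ct (s : ℂ) x) + wdb 0 (TT S u 0) (ct (s : ℂ) x) := by
    rw [h0, Finset.sum_eq_single 0]
    · rw [Pi.single_eq_same, map_one, mul_one, mul_one]
    · intro b _ hb
      rw [Pi.single_eq_of_ne hb, map_zero, mul_zero, mul_zero, add_zero]
    · intro h
      exact absurd (Finset.mem_univ _) h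
  have h4 : TT S u 0 =ᶠ[𝓝 (ct (s : ℂ) x)]
      cx (fun z : Fin (N + 1) → ℂ => Q (res S (z 0)) u (tl z)) := by
    filter_upwards [hnh] with w hw
    exact TT_zero h7 h9 hA1 hA7 hA11 hL2 hS5 hTA hV hS hu hN hw
  obtain ⟨e1, e2⟩ := l2_congr h4 0
  have e3 := (h8 (Fin (N + 1)) (fun z : Fin (N + 1) → ℂ => Q (res S (z 0)) u (tl z))
    (ct (s : ℂ) x)).1 0
  rw [h3, e2, e3, e1, Complex.add_conj] at h2
  rw [e1]
  exact h2

theorem wt_cont (h9 : T_W9) {θ : ℝ → ℝ} (hθ : Cut θ) {κ : (Fin N → ℂ) → ℝ} (hκ : Hom0 κ) :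
    Integrable (cx (wt θ κ) : (Fin N → ℂ) → ℂ) :=
  (s_glob isOpen_compl_singleton shc_compact shc_sub (wt_smooth h9 hθ hκ) fun x hx => by
    show ((wt θ κ x : ℝ) : ℂ) = 0
    rw [wt_zero hθ κ hx, Complex.ofReal_zero]).2.2

/-- Differentiation under the integral. -/
theorem int_deriv (h0 : T_W0) (h6 : T_W6) (h7 : T_W7) (h8 : T_W8) (h9 : T_W9) (hA1 : T_A1)
    (hA7 : T_A7) (hA11 : T_A11) (hL2 : T_L2) (hS5 : T_S5) (hTA : T_TA) {V : Set ℂ}
    (hV : IsOpen V) {S : Form (Fin (N + 1)) p} (hS : FormT V S)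
    {u : Fin q → (Fin N → ℂ) → ℝ} (hu : ∀ j, Pot (u j)) (hN : p + q + 1 = N) {θ : ℝ → ℝ}
    (hθ : Cut θ) {κ : (Fin N → ℂ) → ℝ} (hκ : Hom0 κ) {s : ℝ} (hs : (s : ℂ) ∈ V) :
    HasDerivAt (fun s : ℝ => ∫ x : Fin N → ℂ, (cx (wt θ κ) x * TT S u 0 (ct (s : ℂ) x)).re)
      (∫ x : Fin N → ℂ, 2 * (cx (wt θ κ) x * wd 0 (TT S u 0) (ct (s : ℂ) x)).re) s := by
  set K : Set (Fin N → ℂ) := shc N with hK
  have hKc : IsCompact K := shc_compact
  have hKU : K ⊆ {0}ᶜ := shc_sub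
  have hU : IsOpen ({0}ᶜ : Set (Fin N → ℂ)) := isOpen_compl_singleton
  have hw := wt_smooth h9 hθ hκ
  have hw0 : ∀ x, x ∉ K → cx (wt θ κ) x = 0 := fun x hx => by
    show ((wt θ κ x : ℝ) : ℂ) = 0
    rw [wt_zero hθ κ hx, Complex.ofReal_zero]
  have hi : ∀ t : ℂ, t ∈ V → Integrable (fun x => cx (wt θ κ) x * TT S u 0 (ct t x)) := by
    intro t ht
    have hG : ContDiffOn ℝ ∞ (fun x : Fin N → ℂ => TT S u 0 (ct t x)) {0}ᶜ :=
      (TT_smooth h9 hV hS hu 0).comp (ct_smooth t).contDiffOn fun x hx => ct_mem ht hx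
    exact (s_glob hU hKc hKU (hw.mul hG) fun x hx => by rw [hw0 x hx, zero_mul]).2.2
  have hi' : ∀ t : ℂ, t ∈ V →
      Integrable (fun x => cx (wt θ κ) x * wd 0 (TT S u 0) (ct t x)) := by
    intro t ht
    have hG : ContDiffOn ℝ ∞ (fun x : Fin N → ℂ => wd 0 (TT S u 0) (ct t x)) {0}ᶜ :=
      (h6 (Fin (N + 1)) 0 _ _ (open_WV hV) (TT_smooth h9 hV hS hu 0)).1.comp
        (ct_smooth t).contDiffOn fun x hx => ct_mem ht hx
    exact (s_glob hU hKc hKU (hw.mul hG) fun x hx => by rw [hw0 x hx, zero_mul]).2.2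
  obtain ⟨r, hr, hrV⟩ := Metric.isOpen_iff.1 hV (s : ℂ) hs
  have hKV : Metric.closedBall (s : ℂ) (r / 2) ⊆ V :=
    (Metric.closedBall_subset_ball (by linarith)).trans hrV
  have hct : Continuous (fun y : ℂ × (Fin N → ℂ) => ct y.1 y.2) := by
    refine continuous_pi fun a => ?_
    refine Fin.cases ?_ (fun i => ?_) a
    · exact continuous_fst
    · exact (continuous_apply i).comp continuous_snd
  have hD : ContinuousOn (fun z => wd 0 (TT S u 0) z) (WV N V) :=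
    (h6 (Fin (N + 1)) 0 _ _ (open_WV hV) (TT_smooth h9 hV hS hu 0)).1.continuousOn
  have hDc : ContinuousOn (fun y : ℂ × (Fin N → ℂ) => wd 0 (TT S u 0) (ct y.1 y.2))
      (V ×ˢ {0}ᶜ) := hD.comp hct.continuousOn fun y hy => ⟨hy.1, hy.2⟩
  obtain ⟨M, hM⟩ := ((isCompact_closedBall (s : ℂ) (r / 2)).prod
    hKc).exists_bound_of_continuousOn (hDc.mono (Set.prod_mono hKV hKU))
  have hball : ∀ s' ∈ Metric.ball s (r / 2), (s' : ℂ) ∈ Metric.closedBall (s : ℂ) (r / 2) := by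
    intro s' hs'
    rw [Metric.mem_closedBall, dist_eq_norm, ← Complex.ofReal_sub, Complex.norm_real]
    rw [Metric.mem_ball, dist_eq_norm] at hs'
    exact hs'.le
  have hre : ∀ x : Fin N → ℂ, ∀ c : ℂ, (cx (wt θ κ) x * c).re = wt θ κ x * c.re := fun x c =>
    Complex.re_ofReal_mul _ _
  refine (hasDerivAt_integral_of_dominated_loc_of_deriv_le
    (s := Metric.ball s (r / 2)) (Metric.ball_mem_nhds s (by linarith))
    (F := fun (s : ℝ) (x : Fin N → ℂ) => (cx (wt θ κ) x * TT S u 0 (ct (s : ℂ) x)).re)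
    (F' := fun (s : ℝ) (x : Fin N → ℂ) =>
      2 * (cx (wt θ κ) x * wd 0 (TT S u 0) (ct (s : ℂ) x)).re)
    (bound := fun x => 2 * (‖cx (wt θ κ) x‖ * M)) ?_ (hi s hs).re ?_ ?_ ?_ ?_).2
  · filter_upwards [Metric.ball_mem_nhds s (by linarith : 0 < r / 2)] with s' hs'
    exact (hi s' (hKV (hball s' hs'))).re.aestronglyMeasurable
  · exact ((hi' s hs).re.const_mul 2).aestronglyMeasurable
  · refine Eventually.of_forall fun x s' hs' => ?_
    rw [norm_mul, Real.norm_ofNat]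
    refine mul_le_mul_of_nonneg_left ?_ (by norm_num)
    rw [Real.norm_eq_abs]
    refine (Complex.abs_re_le_norm _).trans ?_
    rw [norm_mul]
    by_cases hx : x ∈ K
    · exact mul_le_mul_of_nonneg_left (hM ((s' : ℂ), x) ⟨hball s' hs', hx⟩) (norm_nonneg _)
    · rw [hw0 x hx, norm_zero, zero_mul, zero_mul]
  · exact ((wt_cont h9 hθ hκ).norm.mul_const M).const_mul 2
  · refine Eventually.of_forall fun x s' hs' => ?_
    by_cases hx : x ∈ K
    · have h1 := TT_deriv h0 h7 h8 h9 hA1 hA7 hA11 hL2 hS5 hTA hV hS hu hN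
        (hKV (hball s' hs')) (hKU hx)
      have h2 : HasDerivAt (fun s : ℝ => (TT S u 0 (ct (s : ℂ) x)).re)
          (2 * (wd 0 (TT S u 0) (ct (s' : ℂ) x)).re) s' := by
        have h3 := Complex.reCLM.hasFDerivAt.comp_hasDerivAt s' h1
        exact h3
      have h4 := h2.const_mul (wt θ κ x)
      simp only [hre]
      rw [mul_left_comm]
      exact h4
    · simp only [hre]
      have hw1 : wt θ κ x = 0 := wt_zero hθ κ hx
      simp only [hw1, zero_mul, mul_zero]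
      exact hasDerivAt_const s' 0

/-- Row LB. -/
theorem pf_LB (h0 : T_W0) (h1 : T_W1) (h5 : T_W5) (h6 : T_W6) (h7 : T_W7) (h8 : T_W8)
    (h9 : T_W9) (hA1 : T_A1) (hA7 : T_A7) (hA9 : T_A9) (hA10 : T_A10) (hA11 : T_A11)
    (hL2 : T_L2) (hS0 : T_S0) (hS1 : T_S1) (hS4 : T_S4) (hS5 : T_S5) (hTA : T_TA) : T_LB := by
  intro N p q V S κ u s hN hV hS hκ hu hs
  have hN0 : 0 < N := by omega
  obtain ⟨θ, hθ⟩ := exists_cut
  -- the density
  have hP : ContinuousOn (fun x : Fin N → ℂ => (PsiT S κ u (ct (s : ℂ) x)).re) {0}ᶜ :=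
    Complex.continuous_re.comp_continuousOn
      ((PsiT_cont h6 h9 hV hS hu hκ).comp (ct_smooth (s : ℂ)).continuous.continuousOn
        fun x hx => ct_mem hs hx)
  refine ⟨?_, meas_of_cont hP⟩
  have hPh : ∀ (r : ℝ) (z : Fin N → ℂ), 0 < r → z ≠ 0 →
      (PsiT S κ u (ct (s : ℂ) ((r : ℂ) • z))).re =
        (r ^ (2 * N))⁻¹ * (PsiT S κ u (ct (s : ℂ) z)).re := by
    intro r z hr hz
    have h := PsiT_hom h0 h1 h6 hV hS hu hκ (ct_mem hs hz)
      (Complex.ofReal_ne_zero.2 hr.ne')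
    rw [tl_ct, Complex.norm_real, Real.norm_of_nonneg hr.le] at h
    have h' : ct (ct (s : ℂ) z 0) ((r : ℂ) • z) = ct (s : ℂ) ((r : ℂ) • z) := rfl
    rw [h'] at h
    rw [h, Complex.re_ofReal_mul]
  -- the pairing
  have hpair : ∀ s' : ℝ, (s' : ℂ) ∈ V → pair κ (res S (s' : ℂ)) u =
      ∫ x : Fin N → ℂ, (cx (wt θ κ) x * TT S u 0 (ct (s' : ℂ) x)).re := by
    intro s' hs'
    have hp : ProjForm (res S (s' : ℂ)) := (hTA N p V (s' : ℂ) hV hs').1 S hS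
    obtain ⟨c1, c2, -⟩ := hS5 N p q (res S (s' : ℂ)) u (fun _ => 1) hN hp
      fun j => lh_of_pot (hu j)
    unfold pair
    have hQ : ContinuousOn (fun z => κ z * Q (res S (s' : ℂ)) u z) {0}ᶜ :=
      hκ.smooth.continuousOn.mul c1
    rw [Iint_cut hS4 hN0 hθ hQ (fun r z hr hz => by
      show κ ((r : ℂ) • z) * Q (res S (s' : ℂ)) u ((r : ℂ) • z) =
        (r ^ (2 * N))⁻¹ * (κ z * Q (res S (s' : ℂ)) u z)
      rw [hκ.hom (r : ℂ) z (Complex.ofReal_ne_zero.2 hr.ne') hz,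
        c2 (r : ℂ) z (Complex.ofReal_ne_zero.2 hr.ne') hz, Complex.norm_real,
        Real.norm_of_nonneg hr.le]
      ring)]
    refine integral_congr_ae (Eventually.of_forall fun x => ?_)
    show θ (ell x) * (κ x * Q (res S (s' : ℂ)) u x) =
      (((wt θ κ x : ℝ) : ℂ) * TT S u 0 (ct (s' : ℂ) x)).re
    rw [Complex.re_ofReal_mul]
    by_cases hx : x = 0
    · have hx' : x ∉ shc N := fun h => shc_sub h hx
      rw [cut_zero hθ hx', wt_zero hθ κ hx', zero_mul, zero_mul]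
    · have e1 := TT_zero h7 h9 hA1 hA7 hA11 hL2 hS5 hTA hV hS hu hN (ct_mem hs' hx)
      rw [tl_ct] at e1
      rw [e1, Complex.ofReal_re]
      show θ (ell x) * (κ x * Q (res S (s' : ℂ)) u x) =
        θ (ell x) * κ x * Q (res S (s' : ℂ)) u x
      rw [mul_assoc]
  have hder := int_deriv h0 h6 h7 h8 h9 hA1 hA7 hA11 hL2 hS5 hTA hV hS hu hN hθ hκ hs
  have hev : (fun s : ℝ => pair κ (res S (s : ℂ)) u) =ᶠ[𝓝 s]
      fun s : ℝ => ∫ x : Fin N → ℂ, (cx (wt θ κ) x * TT S u 0 (ct (s : ℂ) x)).re := by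
    have : ∀ᶠ s' : ℝ in 𝓝 s, (s' : ℂ) ∈ V :=
      Complex.continuous_ofReal.continuousAt.eventually (hV.mem_nhds hs)
    filter_upwards [this] with s' hs'
    exact hpair s' hs'
  have hder' := hder.congr_of_eventuallyEq hev
  refine hder'.congr_deriv ?_
  have hibp := ibp h0 h1 h5 h6 h7 h8 h9 hA1 hA9 hA10 hS0 hS1 hV hS hu hθ hκ hs
  rw [integral_const_mul, Iint_cut hS4 hN0 hθ hP hPh]
  congr 1
  -- integrability of the two sides
  have hU : IsOpen ({0}ᶜ : Set (Fin N → ℂ)) := isOpen_compl_singleton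
  have hw0 : ∀ x, x ∉ shc N → cx (wt θ κ) x = 0 := fun x hx => by
    show ((wt θ κ x : ℝ) : ℂ) = 0
    rw [wt_zero hθ κ hx, Complex.ofReal_zero]
  have hG : ContDiffOn ℝ ∞ (fun x : Fin N → ℂ => wd 0 (TT S u 0) (ct (s : ℂ) x)) {0}ᶜ :=
    (h6 (Fin (N + 1)) 0 _ _ (open_WV hV) (TT_smooth h9 hV hS hu 0)).1.comp
      (ct_smooth (s : ℂ)).contDiffOn fun x hx => ct_mem hs hx
  have hi1 : Integrable (fun x => cx (wt θ κ) x * wd 0 (TT S u 0) (ct (s : ℂ) x)) :=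
    (s_glob hU shc_compact shc_sub ((wt_smooth h9 hθ hκ).mul hG)
      fun x hx => by rw [hw0 x hx, zero_mul]).2.2
  have hi2 : Integrable
      (fun x : Fin N → ℂ => ((θ (ell x) : ℝ) : ℂ) * PsiT S κ u (ct (s : ℂ) x)) := by
    have hc : ContinuousOn
        (fun x : Fin N → ℂ => ((θ (ell x) : ℝ) : ℂ) * PsiT S κ u (ct (s : ℂ) x)) {0}ᶜ := by
      refine ContinuousOn.mul ?_ ?_
      · exact Complex.continuous_ofReal.comp_continuousOn
          (hθ.smooth.continuous.comp_continuousOn (h9 (Fin N)).1.continuousOn)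
      · exact (PsiT_cont h6 h9 hV hS hu hκ).comp
          (ct_smooth (s : ℂ)).continuous.continuousOn fun x hx => ct_mem hs hx
    have hon : IntegrableOn
        (fun x : Fin N → ℂ => ((θ (ell x) : ℝ) : ℂ) * PsiT S κ u (ct (s : ℂ) x)) (shc N) :=
      (hc.mono shc_sub).integrableOn_compact shc_compact
    rw [← integrableOn_iff_integrable_of_support_subset (s := shc N)]
    · exact hon
    · intro x hx
      by_contra hcon
      apply hx
      show ((θ (ell x) : ℝ) : ℂ) * PsiT S κ u (ct (s : ℂ) x) = 0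
      rw [cut_zero hθ hcon, Complex.ofReal_zero, zero_mul]
  have e1 : ∫ x : Fin N → ℂ, (cx (wt θ κ) x * wd 0 (TT S u 0) (ct (s : ℂ) x)).re =
      (∫ x : Fin N → ℂ, cx (wt θ κ) x * wd 0 (TT S u 0) (ct (s : ℂ) x)).re :=
    Complex.reCLM.integral_comp_comm hi1
  have e2 : ∫ x : Fin N → ℂ, (((θ (ell x) : ℝ) : ℂ) * PsiT S κ u (ct (s : ℂ) x)).re =
      (∫ x : Fin N → ℂ, ((θ (ell x) : ℝ) : ℂ) * PsiT S κ u (ct (s : ℂ) x)).re :=
    Complex.reCLM.integral_comp_comm hi2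
  rw [e1, hibp, ← e2]
  refine integral_congr_ae (Eventually.of_forall fun x => ?_)
  exact Complex.re_ofReal_mul _ _

end five

end

end Pool.Agent.H40.EQ
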