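import Pool.Agent.H38.EQ.Targets

/-!
Row TGT: no mass escapes.
-/

set_option autoImplicit false

open Finset Filter Topology

namespace Pool.Agent.H40.EQ

open Pool.Agent.H38.EQ
open Pool.Agent.H38.AE.Statement (Admissible radical)
open Pool.Agent.H38.AT (height)
open Pool.Agent.H82.AS (Sqf ex sq)

/-- A large point at which a negative power is small. -/
lemma exists_small (C c δ : ℝ) (hc : 0 < c) (hδ : 0 < δ) :
    ∃ Z₀ : ℝ, 1 ≤ Z₀ ∧ ∀ Z : ℝ, Z₀ ≤ Z → C * Z ^ (-c) ≤ δ := by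
  have h1 : Tendsto (fun Z : ℝ => C * Z ^ (-c)) atTop (𝓝 (C * 0)) :=
    (tendsto_rpow_neg_atTop hc).const_mul C
  rw [mul_zero] at h1
  have h2 : ∀ᶠ Z : ℝ in atTop, C * Z ^ (-c) ≤ δ := h1.eventually_le_const hδ
  obtain ⟨Z₀, hZ₀⟩ := eventually_atTop.mp h2
  exact ⟨max 1 Z₀, le_max_left _ _, fun Z hZ => hZ₀ Z ((le_max_right _ _).trans hZ)⟩

lemma pr_pos {n : ℕ} (x : Fin n → ℤ) (hx : Admissible x) : 1 ≤ pr x := by
  unfold pr
  refine Nat.one_le_iff_ne_zero.mpr (Int.natAbs_ne_zero.mpr ?_)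
  exact Finset.prod_ne_zero_iff.mpr (fun i _ => hx.1 i)

theorem pf_TGT (h1 : T_SQL) (h2 : T_SQM) (h3 : T_HTL) (h4 : Pool.Agent.H82.AS.T_SQB) :
    T_TGT := by
  intro n hn
  obtain ⟨η, c, C, hη, hc, hC, h2⟩ := h2 n hn
  obtain ⟨ε₀, c', C', hε₀, hc', hC', h1⟩ := h1 n hn η hη
  refine ⟨ε₀, hε₀, ?_⟩
  intro ε hε
  obtain ⟨Y, hY1, hY⟩ := exists_small C c (ε / 4) hc (by positivity)
  obtain ⟨CY, hCY, h3⟩ := h3 n hn Y hY1
  obtain ⟨lam, hlam1, hlam⟩ := exists_small CY (1 / 2) (ε / 4) (by norm_num) (by positivity)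
  obtain ⟨X1, hX11, hX1⟩ := exists_small C c (ε / 4) hc (by positivity)
  obtain ⟨X2, hX21, hX2⟩ := exists_small C' c' (ε / 4) hc' (by positivity)
  refine ⟨Y, lam, max X1 X2, hY1, hlam1, le_max_of_le_left hX11, ?_⟩
  intro X F hX hF
  have hXX1 : X1 ≤ X := (le_max_left _ _).trans hX
  have hXX2 : X2 ≤ X := (le_max_right _ _).trans hX
  have hX1' : 1 ≤ X := hX11.trans hXX1
  have hX0 : 0 < X := by linarith
  classical
  set A : ℝ := X ^ (1 - 1 / (n : ℝ)) with hA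
  have hA0 : 0 ≤ A := Real.rpow_nonneg hX0.le _
  have hsplit : ∀ e : ℝ, X ^ (1 - 1 / (n : ℝ) - e) = X ^ (-e) * A := by
    intro e
    rw [hA, ← Real.rpow_add hX0]
    congr 1
    ring
  set F1 := F.filter (fun x => X ^ η < (sq (pr x) : ℝ)) with hF1
  set G := F.filter (fun x => ¬ X ^ η < (sq (pr x) : ℝ)) with hG
  set F2 := G.filter (fun x => Y ≤ (sq (pr x) : ℝ)) with hF2
  set F3 := G.filter (fun x => ¬ Y ≤ (sq (pr x) : ℝ)) with hF3
  have hcF : F.card = F1.card + G.card := (Finset.card_filter_add_card_filter_not _).symm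
  have hcG : G.card = F2.card + F3.card := (Finset.card_filter_add_card_filter_not _).symm
  have b1 : (F1.card : ℝ) ≤ ε / 4 * A := by
    have h5 := h1 X F1 hX1' (fun x hx => by
      obtain ⟨hx1, hx2⟩ := Finset.mem_filter.mp hx
      obtain ⟨a1, a2, a3, a4⟩ := hF x hx1
      exact ⟨a1, a3, hx2⟩)
    rw [hsplit c'] at h5
    have h6 := mul_le_mul_of_nonneg_right (hX2 X hXX2) hA0
    calc (F1.card : ℝ) ≤ C' * (X ^ (-c') * A) := h5
      _ = C' * X ^ (-c') * A := by ring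
      _ ≤ _ := h6
  have b2 : (F2.card : ℝ) ≤ ε / 4 * A + ε / 4 * A := by
    have h5 := h2 X Y F2 hX1' hY1 (fun x hx => by
      obtain ⟨hx1, hx2⟩ := Finset.mem_filter.mp hx
      obtain ⟨hx3, hx4⟩ := Finset.mem_filter.mp hx1
      obtain ⟨a1, a2, a3, a4⟩ := hF x hx3
      exact ⟨a1, a2, hx2, not_lt.mp hx4⟩)
    rw [hsplit c] at h5
    have h6 := mul_le_mul_of_nonneg_right (hY Y le_rfl) hA0
    have h7 := mul_le_mul_of_nonneg_right (hX1 X hXX1) hA0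
    calc (F2.card : ℝ) ≤ C * (Y ^ (-c) * A + X ^ (-c) * A) := h5
      _ = C * Y ^ (-c) * A + C * X ^ (-c) * A := by ring
      _ ≤ _ := add_le_add h6 h7
  have b3 : (F3.card : ℝ) ≤ ε / 4 * A := by
    have h5 := h3 X lam F3 hX1' hlam1 (fun x hx => by
      obtain ⟨hx1, hx2⟩ := Finset.mem_filter.mp hx
      obtain ⟨hx3, hx4⟩ := Finset.mem_filter.mp hx1
      obtain ⟨a1, a2, a3, a4⟩ := hF x hx3
      have hsY : (sq (pr x) : ℝ) < Y := not_le.mp hx2
      refine ⟨a1, a2, hsY.le, ?_⟩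
      rcases a4 with a4 | a4
      · exfalso
        have hp : 1 ≤ pr x := pr_pos x a1
        obtain ⟨_, s2, s3, _⟩ := h4 (pr x) hp
        have hs : 1 ≤ Pool.Agent.H82.AS.sq (pr x) := Nat.pos_of_dvd_of_pos s2 hp
        obtain ⟨_, _, _, _, _, s6, _⟩ := h4 (Pool.Agent.H82.AS.sq (pr x)) hs
        rw [s3] at s6
        linarith
      · exact a4)
    have h6 := mul_le_mul_of_nonneg_right (hlam lam le_rfl) hA0
    exact h5.trans h6
  rw [hcF, hcG]
  push_cast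
  linarith

end Pool.Agent.H40.EQ
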